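import Mathlib

/-!
Laurent polynomials, power sums, Jack (Laurent) polynomials: basic definitions.
-/

namespace Pool.Agent.R310.JL

open Finset

/-- Laurent polynomials in `N` variables with complex coefficients. -/
abbrev LP (N : ℕ) : Type := AddMonoidAlgebra ℂ (Fin N → ℤ)

/-- The monomial `x_j ^ a`. -/
noncomputable def xpow {N : ℕ} (j : Fin N) (a : ℤ) : LP N :=
  AddMonoidAlgebra.single (Pi.single j a) 1

/-- The power sum `x_1 ^ a + ... + x_N ^ a`. -/
noncomputable def psm (N : ℕ) (a : ℤ) : LP N := ∑ j : Fin N, xpow j a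

/-- sum over pairs `i < j` -/
noncomputable def pairSum {A : Type*} [AddCommMonoid A] (N : ℕ) (h : Fin N → Fin N → A) : A :=
  ∑ i : Fin N, ∑ j : Fin N, if i < j then h i j else 0

/-- The operator `x_j d/dx_j`: it multiplies the coefficient of `x ^ η` by `η_j`. -/
noncomputable def theta {N : ℕ} (j : Fin N) (f : LP N) : LP N :=
  AddMonoidAlgebra.ofCoeff
    (Finsupp.onFinset f.coeff.support (fun η => (η j : ℂ) * f.coeff η) (by
      intro η hη
      rw [Finsupp.mem_support_iff]
      exact fun h => hη (by rw [h, mul_zero])))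

/-- The eigenvalue `∑ χ_i ^ 2 - k ∑_{i<j} (χ_i - χ_j)` of the Calogero-Moser-Sutherland
operator belonging to the weight `χ`. -/
noncomputable def Eig (k : ℂ) {N : ℕ} (χ : Fin N → ℤ) : ℂ :=
  (∑ i, (χ i : ℂ) ^ 2) - k * pairSum N (fun i j => (χ i : ℂ) - (χ j : ℂ))

/-- `f` is the (monic) Jack polynomial with Jack parameter `-1/k` and leading weight `χ`:
it is symmetric, the coefficient of `x ^ χ` is one, all exponents `η` occurring in it are
below `χ` in the dominance order (same total, and for every set `S` of places the sum of `η`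
over `S` is at most the sum of the first `|S|` entries of `χ`), and it is an eigenfunction of
`∑ (x_i ∂_i)^2 - k ∑_{i<j} (x_i + x_j)/(x_i - x_j) (x_i ∂_i - x_j ∂_j)`; here `h i j` is the
quotient `(x_i + x_j)(x_i ∂_i f - x_j ∂_j f)/(x_i - x_j)`. -/
structure IsJack (k : ℂ) {N : ℕ} (χ : Fin N → ℤ) (f : LP N) : Prop where
  symm : ∀ (σ : Equiv.Perm (Fin N)) (η : Fin N → ℤ), f.coeff (fun i => η (σ i)) = f.coeff η
  monic : f.coeff χ = 1
  total : ∀ η, f.coeff η ≠ 0 → ∑ i, η i = ∑ i, χ i
  dom : ∀ η, f.coeff η ≠ 0 → ∀ S : Finset (Fin N),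
    ∑ i ∈ S, η i ≤ ∑ i : Fin N, if (i : ℕ) < S.card then χ i else 0
  eig : ∃ h : Fin N → Fin N → LP N,
    (∀ i j, i < j → (xpow i 1 - xpow j 1) * h i j
      = (xpow i 1 + xpow j 1) * (theta i f - theta j f)) ∧
    ∑ j, theta j (theta j f) - k • pairSum N h = Eig k χ • f

/-- The monomial `(x_1 ⋯ x_N) ^ c`. -/
noncomputable def xall (N : ℕ) (c : ℤ) : LP N := AddMonoidAlgebra.single (fun _ => c) 1

/-- `f = (x_1 ⋯ x_N) ^ χ_N * P_ν` where `N = n + 1`, `ν = χ - χ_N (1, ..., 1)` and `P_ν` is the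
Jack polynomial of the partition `ν`. -/
def IsJackWeight (k : ℂ) {n : ℕ} (χ : Fin (n + 1) → ℤ) (f : LP (n + 1)) : Prop :=
  ∃ g : LP (n + 1), IsJack k (fun i => χ i - χ (Fin.last n)) g ∧
    f = xall (n + 1) (χ (Fin.last n)) * g

/-- Partitions: weakly decreasing lists of positive integers. -/
def IsPartition (l : List ℕ) : Prop := l.Pairwise (fun a b => b ≤ a) ∧ ∀ a ∈ l, 0 < a

/-- The weight `(λ_1, ..., λ_r, 0, ..., 0, -μ_s, ..., -μ_1)` of length `N`
(used for `r + s ≤ N`; places are counted from `0`). -/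
def chi (N : ℕ) (lam mu : List ℕ) : Fin N → ℤ :=
  fun i => (lam.getD i 0 : ℤ) - (mu.getD (N - 1 - i) 0 : ℤ)

/-- The homomorphism `p_i ↦ x_1 ^ i + ... + x_N ^ i` on `ℂ[p_i : i ∈ ℤ, i ≠ 0]`. -/
noncomputable def phi (N : ℕ) : MvPolynomial {i : ℤ // i ≠ 0} ℂ →ₐ[ℂ] LP N :=
  MvPolynomial.aeval (fun i => psm N i)

/-- The substitution `p_0 = z` in the coefficients, which are rational functions of `p_0`. -/
noncomputable def spec (z : ℂ) (F : MvPolynomial {i : ℤ // i ≠ 0} (RatFunc ℂ)) :
    MvPolynomial {i : ℤ // i ≠ 0} ℂ :=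
  ∑ m ∈ F.support, MvPolynomial.monomial m (RatFunc.eval (RingHom.id ℂ) z (F.coeff m))

/-- `F` is the Jack-Laurent symmetric function of the bipartition `(lam, mu)`: for every
number of variables `N = n + 1` at which no coefficient of `F` has a pole, the image of
`F|_{p_0 = N}` in `N` variables is the Jack polynomial of the weight `χ_N(lam, mu)` if
`l(lam) + l(mu) ≤ N`, and `0` otherwise. -/
structure IsJackLaurent (k : ℂ) (lam mu : List ℕ)
    (F : MvPolynomial {i : ℤ // i ≠ 0} (RatFunc ℂ)) : Prop where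
  jack : ∀ n : ℕ, (∀ m, (F.coeff m).denom.eval ((n + 1 : ℕ) : ℂ) ≠ 0) →
    lam.length + mu.length ≤ n + 1 →
    IsJackWeight k (chi (n + 1) lam mu) (phi (n + 1) (spec ((n + 1 : ℕ) : ℂ) F))
  zero : ∀ n : ℕ, (∀ m, (F.coeff m).denom.eval ((n + 1 : ℕ) : ℂ) ≠ 0) →
    n + 1 < lam.length + mu.length → phi (n + 1) (spec ((n + 1 : ℕ) : ℂ) F) = 0

theorem theta_coeff {N : ℕ} (j : Fin N) (f : LP N) (η : Fin N → ℤ) :
    (theta j f).coeff η = (η j : ℂ) * f.coeff η := rfl

theorem theta_add {N : ℕ} (j : Fin N) (f g : LP N) :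
    theta j (f + g) = theta j f + theta j g := by
  ext η
  simp only [theta_coeff, AddMonoidAlgebra.coeff_add, Finsupp.add_apply]
  ring

theorem theta_zero {N : ℕ} (j : Fin N) : theta j (0 : LP N) = 0 := by
  ext η
  simp [theta_coeff]

theorem theta_single {N : ℕ} (j : Fin N) (η : Fin N → ℤ) (c : ℂ) :
    theta j (AddMonoidAlgebra.single η c) = AddMonoidAlgebra.single η ((η j : ℂ) * c) := by
  ext ζ
  simp only [theta_coeff, AddMonoidAlgebra.coeff_single, Finsupp.single_apply]
  split_ifs with h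
  · rw [h]
  · simp

theorem theta_smul {N : ℕ} (j : Fin N) (c : ℂ) (f : LP N) :
    theta j (c • f) = c • theta j f := by
  ext η
  simp only [theta_coeff, AddMonoidAlgebra.coeff_smul, Finsupp.smul_apply, smul_eq_mul]
  ring

theorem theta_sum {N : ℕ} (j : Fin N) {ι : Type*} (s : Finset ι) (f : ι → LP N) :
    theta j (∑ i ∈ s, f i) = ∑ i ∈ s, theta j (f i) := by
  classical
  induction s using Finset.induction_on with
  | empty => simp [theta_zero]
  | insert a s ha ih => rw [Finset.sum_insert ha, Finset.sum_insert ha, theta_add, ih]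

theorem theta_mul {N : ℕ} (j : Fin N) (f g : LP N) :
    theta j (f * g) = theta j f * g + f * theta j g := by
  induction f using AddMonoidAlgebra.induction_linear with
  | zero => simp [theta_zero]
  | add f₁ f₂ h₁ h₂ => rw [add_mul, theta_add, h₁, h₂, theta_add]; ring
  | single η c =>
    induction g using AddMonoidAlgebra.induction_linear with
    | zero => simp [theta_zero]
    | add g₁ g₂ h₁ h₂ => rw [mul_add, theta_add, h₁, h₂, theta_add]; ring
    | single ζ e =>
      rw [AddMonoidAlgebra.single_mul_single, theta_single, theta_single, theta_single,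
        AddMonoidAlgebra.single_mul_single, AddMonoidAlgebra.single_mul_single,
        ← AddMonoidAlgebra.single_add]
      congr 1
      push_cast [Pi.add_apply]
      ring

theorem theta_xpow {N : ℕ} (j i : Fin N) (a : ℤ) :
    theta j (xpow i a) = if j = i then (a : ℂ) • xpow i a else 0 := by
  unfold xpow
  rw [theta_single]
  split_ifs with h
  · subst h
    simp
  · simp [Pi.single_eq_of_ne h]

theorem theta_psm {N : ℕ} (j : Fin N) (a : ℤ) :
    theta j (psm N a) = (a : ℂ) • xpow j a := by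
  unfold psm
  rw [theta_sum, Finset.sum_eq_single j]
  · rw [theta_xpow, if_pos rfl]
  · intro i _ hi
    rw [theta_xpow, if_neg (Ne.symm hi)]
  · simp

theorem xpow_mul {N : ℕ} (j : Fin N) (a b : ℤ) : xpow j a * xpow j b = xpow j (a + b) := by
  unfold xpow
  rw [AddMonoidAlgebra.single_mul_single, one_mul, ← Pi.single_add]

theorem xpow_zero {N : ℕ} (j : Fin N) : xpow j 0 = 1 := by
  unfold xpow
  rw [Pi.single_zero, AddMonoidAlgebra.one_def]

theorem psm_zero (N : ℕ) : psm N 0 = (N : LP N) := by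
  unfold psm
  simp [xpow_zero]

theorem coeff_xpow_mul {N : ℕ} (j : Fin N) (a : ℤ) (f : LP N) (η : Fin N → ℤ) :
    (xpow j a * f).coeff η = f.coeff (η - Pi.single j a) := by
  unfold xpow
  rw [AddMonoidAlgebra.coeff_single_mul_apply, one_mul]
  congr 1
  abel

theorem coeff_psm_mul {N : ℕ} (a : ℤ) (f : LP N) (η : Fin N → ℤ) :
    (psm N a * f).coeff η = ∑ j : Fin N, f.coeff (η - Pi.single j a) := by
  unfold psm
  rw [Finset.sum_mul, AddMonoidAlgebra.coeff_sum, Finsupp.finsetSum_apply]
  exact Finset.sum_congr rfl fun j _ => coeff_xpow_mul j a f η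

end Pool.Agent.R310.JL
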