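import Pool.Agent.R310.JL.Jack

/-!
Numerical facts on the weights `chi N lam mu`.
-/

namespace Pool.Agent.R310.JL

open Finset

/-- size of a list of parts, as a sum over the first `n` positions -/
def psz (l : List ℕ) (n : ℕ) : ℕ := ∑ i ∈ range n, l.getD i 0

theorem getD_zero {l : List ℕ} {i : ℕ} (h : l.length ≤ i) : l.getD i 0 = 0 := by
  rw [List.getD_eq_default _ _ h]

theorem psz_stable {l : List ℕ} {n : ℕ} (h : l.length ≤ n) : psz l n = psz l l.length := by
  unfold psz
  symm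
  apply Finset.sum_subset (Finset.range_subset_range.2 h)
  intro i _ hi
  exact getD_zero (by simpa using hi)

theorem psz_le (l : List ℕ) (n : ℕ) : psz l n ≤ psz l l.length := by
  rcases le_total l.length n with h | h
  · rw [psz_stable h]
  · unfold psz
    exact Finset.sum_le_sum_of_subset (Finset.range_subset_range.2 h)

/-- `|λ| + |μ|` -/
def dd (lam mu : List ℕ) : ℕ := psz lam lam.length + psz mu mu.length

theorem sum_range_reflect' (f : ℕ → ℤ) (N : ℕ) :
    ∑ i ∈ range N, f (N - 1 - i) = ∑ i ∈ range N, f i := Finset.sum_range_reflect f N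

theorem chi_total {lam mu : List ℕ} {N : ℕ} (hN : lam.length + mu.length ≤ N) :
    ∑ i, chi N lam mu i = (psz lam lam.length : ℤ) - psz mu mu.length := by
  unfold chi
  rw [Finset.sum_sub_distrib]
  congr 1
  · rw [← Finset.sum_range (fun i => (lam.getD i 0 : ℤ)), ← psz_stable (show lam.length ≤ N by omega)]
    unfold psz
    push_cast
    rfl
  · rw [← Finset.sum_range (fun i => (mu.getD (N - 1 - i) 0 : ℤ)),
      sum_range_reflect' (fun i => (mu.getD i 0 : ℤ)), ← psz_stable (show mu.length ≤ N by omega)]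
    unfold psz
    push_cast
    rfl

theorem chi_partial (lam mu : List ℕ) (N t : ℕ) :
    (∑ i : Fin N, if (i : ℕ) < t then chi N lam mu i else 0) ≤ (psz lam lam.length : ℤ) := by
  have h1 : ∀ i : Fin N, (if (i : ℕ) < t then chi N lam mu i else 0)
      ≤ (lam.getD i 0 : ℤ) := by
    intro i
    unfold chi
    split_ifs
    · have : (0 : ℤ) ≤ (mu.getD (N - 1 - i) 0 : ℤ) := by positivity
      linarith
    · positivity
  refine (Finset.sum_le_sum fun i _ => h1 i).trans ?_
  rw [← Finset.sum_range (fun i => (lam.getD i 0 : ℤ))]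
  have := psz_le lam N
  unfold psz at this ⊢
  exact_mod_cast this

theorem nrm_le_of_dom {lam mu : List ℕ} {N : ℕ} (hN : lam.length + mu.length ≤ N)
    {η : Fin N → ℤ} (htot : ∑ i, η i = ∑ i, chi N lam mu i)
    (hdom : ∀ S : Finset (Fin N), ∑ i ∈ S, η i
      ≤ ∑ i : Fin N, if (i : ℕ) < S.card then chi N lam mu i else 0) :
    ∑ i, (η i).natAbs ≤ dd lam mu := by
  have h1 := (hdom (Finset.univ.filter fun i => 0 < η i)).trans (chi_partial lam mu N _)
  rw [chi_total hN] at htot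
  rw [Finset.sum_filter] at h1
  have h2 : ∑ i, ((η i).natAbs : ℤ) = 2 * (∑ i, if 0 < η i then η i else 0) - ∑ i, η i := by
    rw [Finset.mul_sum, ← Finset.sum_sub_distrib]
    refine Finset.sum_congr rfl fun i _ => ?_
    split_ifs <;> omega
  have h3 : ((∑ i, (η i).natAbs : ℕ) : ℤ) ≤ (dd lam mu : ℤ) := by
    push_cast
    rw [Finset.sum_congr rfl fun i _ => (Int.natCast_natAbs (η i)).symm, h2, htot]
    unfold dd
    push_cast
    linarith
  exact_mod_cast h3

/-- the constant value of `∑ χ_i ^ 2` -/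
def sq2 (lam mu : List ℕ) : ℤ :=
  ∑ i ∈ range lam.length, (lam.getD i 0 : ℤ) ^ 2 + ∑ i ∈ range mu.length, (mu.getD i 0 : ℤ) ^ 2

theorem chi_sq {lam mu : List ℕ} {N : ℕ} (hN : lam.length + mu.length ≤ N) :
    ∑ i, chi N lam mu i ^ 2 = sq2 lam mu := by
  have h1 : ∀ i : Fin N, chi N lam mu i ^ 2
      = (lam.getD i 0 : ℤ) ^ 2 + (mu.getD (N - 1 - i) 0 : ℤ) ^ 2 := by
    intro i
    unfold chi
    rcases lt_or_ge (i : ℕ) lam.length with h | h
    · rw [getD_zero (l := mu) (i := N - 1 - i) (by omega)]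
      simp
    · rw [getD_zero h]
      simp
  simp_rw [h1]
  rw [Finset.sum_add_distrib, ← Finset.sum_range (fun i => (lam.getD i 0 : ℤ) ^ 2),
    ← Finset.sum_range (fun i => (mu.getD (N - 1 - i) 0 : ℤ) ^ 2),
    sum_range_reflect' (fun i => (mu.getD i 0 : ℤ) ^ 2)]
  unfold sq2
  have h2 : ∀ l : List ℕ, l.length ≤ N → ∑ i ∈ range N, (l.getD i 0 : ℤ) ^ 2
      = ∑ i ∈ range l.length, (l.getD i 0 : ℤ) ^ 2 := by
    intro l hl
    symm
    apply Finset.sum_subset (Finset.range_subset_range.2 hl)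
    intro i _ hi
    rw [getD_zero (by simpa using hi)]
    simp
  rw [h2 lam (by omega), h2 mu (by omega)]

/-- sum over pairs `i < j < N` of naturals -/
def PS (N : ℕ) {A : Type*} [AddCommMonoid A] (F : ℕ → ℕ → A) : A :=
  ∑ j ∈ range N, ∑ i ∈ range j, F i j

theorem pairSum_eq_PS {A : Type*} [AddCommMonoid A] (N : ℕ) (F : ℕ → ℕ → A) :
    pairSum N (fun i j => F i j) = PS N F := by
  unfold pairSum PS
  rw [Finset.sum_comm]
  have h1 : ∀ j : Fin N, (∑ i : Fin N, if i < j then F i j else 0) = ∑ i ∈ range j, F i j := by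
    intro j
    have h2 : ∀ i : Fin N, (if i < j then F i j else 0)
        = (fun i : ℕ => if i < (j : ℕ) then F i j else 0) i := by
      intro i
      simp only [Fin.lt_def]
    simp_rw [h2]
    rw [← Finset.sum_range (fun i : ℕ => if i < (j : ℕ) then F i j else 0), ← Finset.sum_filter]
    congr 1
    ext i
    simp only [Finset.mem_filter, Finset.mem_range]
    have := j.2
    omega
  simp_rw [h1]
  rw [← Finset.sum_range (fun j => ∑ i ∈ range j, F i j)]

theorem PS_sub (N : ℕ) (f : ℕ → ℤ) :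
    PS N (fun i j => f i - f j) = ∑ i ∈ range N, ((N : ℤ) - 1 - 2 * i) * f i := by
  unfold PS
  induction N with
  | zero => simp
  | succ n ih =>
    rw [Finset.sum_range_succ, ih, Finset.sum_range_succ, Finset.sum_sub_distrib,
      Finset.sum_const, Finset.card_range, nsmul_eq_mul]
    have : ∑ x ∈ range n, (((n + 1 : ℕ) : ℤ) - 1 - 2 * (x : ℤ)) * f x
        = ∑ x ∈ range n, ((n : ℤ) - 1 - 2 * (x : ℤ)) * f x + ∑ x ∈ range n, f x := by
      rw [← Finset.sum_add_distrib]
      refine Finset.sum_congr rfl fun i _ => ?_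
      push_cast
      ring
    rw [this]
    push_cast
    ring

/-- the constant in `∑_{i<j} (χ_i - χ_j) = N d - c` -/
def cc (lam mu : List ℕ) : ℤ :=
  ∑ i ∈ range lam.length, (1 + 2 * (i : ℤ)) * (lam.getD i 0 : ℤ)
    + ∑ i ∈ range mu.length, (1 + 2 * (i : ℤ)) * (mu.getD i 0 : ℤ)

theorem chi_pair {lam mu : List ℕ} {N : ℕ} (hN : lam.length + mu.length ≤ N) :
    pairSum N (fun i j => chi N lam mu i - chi N lam mu j)
      = (N : ℤ) * dd lam mu - cc lam mu := by
  have h0 : pairSum N (fun i j => chi N lam mu i - chi N lam mu j)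
      = PS N (fun i j => ((lam.getD i 0 : ℤ) - (mu.getD (N - 1 - i) 0 : ℤ))
        - ((lam.getD j 0 : ℤ) - (mu.getD (N - 1 - j) 0 : ℤ))) := by
    rw [← pairSum_eq_PS]
    rfl
  rw [h0, PS_sub N (fun i => (lam.getD i 0 : ℤ) - (mu.getD (N - 1 - i) 0 : ℤ))]
  have h1 : ∀ l : List ℕ, l.length ≤ N →
      ∑ i ∈ range N, ((N : ℤ) - 1 - 2 * i) * (l.getD i 0 : ℤ)
        = (N : ℤ) * psz l l.length
          - ∑ i ∈ range l.length, (1 + 2 * (i : ℤ)) * (l.getD i 0 : ℤ) := by
    intro l hl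
    have h2 : ∑ i ∈ range l.length, ((N : ℤ) - 1 - 2 * i) * (l.getD i 0 : ℤ)
        = ∑ i ∈ range N, ((N : ℤ) - 1 - 2 * i) * (l.getD i 0 : ℤ) := by
      apply Finset.sum_subset (Finset.range_subset_range.2 hl)
      intro i _ hi
      rw [getD_zero (by simpa using hi)]
      simp
    rw [← h2]
    unfold psz
    push_cast
    rw [Finset.mul_sum, ← Finset.sum_sub_distrib]
    refine Finset.sum_congr rfl fun i _ => ?_
    ring
  have h3 : ∑ i ∈ range N, ((N : ℤ) - 1 - 2 * i) * ((lam.getD i 0 : ℤ) - (mu.getD (N - 1 - i) 0 : ℤ))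
      = ∑ i ∈ range N, ((N : ℤ) - 1 - 2 * i) * (lam.getD i 0 : ℤ)
        + ∑ i ∈ range N, ((N : ℤ) - 1 - 2 * i) * (mu.getD i 0 : ℤ) := by
    have h4 := sum_range_reflect' (fun i => ((N : ℤ) - 1 - 2 * i) * (mu.getD i 0 : ℤ)) N
    rw [← h4, ← Finset.sum_add_distrib]
    refine Finset.sum_congr rfl fun i hi => ?_
    rw [Finset.mem_range] at hi
    have h5 : ((N - 1 - i : ℕ) : ℤ) = (N : ℤ) - 1 - i := by omega
    rw [h5]
    ring
  rw [h3, h1 lam (by omega), h1 mu (by omega)]
  unfold dd cc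
  push_cast
  ring

end Pool.Agent.R310.JL
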