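import Pool.Agent.R310.JL.Chi

/-!
The eigenvalue equation on coefficients.
-/

namespace Pool.Agent.R310.JL

open Finset

theorem coeff_sub_mul {N : ℕ} (i j : Fin N) (h : LP N) (η : Fin N → ℤ) :
    ((xpow i 1 - xpow j 1) * h).coeff η
      = h.coeff (η - Pi.single i 1) - h.coeff (η - Pi.single j 1) := by
  rw [sub_mul, AddMonoidAlgebra.coeff_sub, Finsupp.sub_apply, coeff_xpow_mul, coeff_xpow_mul]

theorem coeff_add_mul {N : ℕ} (i j : Fin N) (h : LP N) (η : Fin N → ℤ) :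
    ((xpow i 1 + xpow j 1) * h).coeff η
      = h.coeff (η - Pi.single i 1) + h.coeff (η - Pi.single j 1) := by
  rw [add_mul, AddMonoidAlgebra.coeff_add, Finsupp.add_apply, coeff_xpow_mul, coeff_xpow_mul]

theorem pair_coeff {N : ℕ} {f h : LP N} {i j : Fin N} (hij : i ≠ j)
    (hh : (xpow i 1 - xpow j 1) * h = (xpow i 1 + xpow j 1) * (theta i f - theta j f))
    (η : Fin N → ℤ) (D : ℕ)
    (hD : ∀ s : ℕ, D < s → f.coeff (η + (Pi.single i (s : ℤ) - Pi.single j (s : ℤ))) = 0) :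
    h.coeff η = ((η i : ℂ) - η j) * f.coeff η
      + 2 * ∑ s ∈ range D, (((η i : ℂ) - η j) + 2 * ((s + 1 : ℕ) : ℂ))
        * f.coeff (η + (Pi.single i ((s + 1 : ℕ) : ℤ) - Pi.single j ((s + 1 : ℕ) : ℤ))) := by
  set v : ℕ → (Fin N → ℤ) := fun s => η + (Pi.single i (s : ℤ) - Pi.single j (s : ℤ)) with hv
  set U : ℕ → ℂ := fun s => (((η i : ℂ) - η j) + 2 * (s : ℂ)) * f.coeff (v s) with hU
  have hv0 : v 0 = η := by simp [hv]
  have hu : ∀ s, (theta i f - theta j f).coeff (v s) = U s := by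
    intro s
    rw [AddMonoidAlgebra.coeff_sub, Finsupp.sub_apply, theta_coeff, theta_coeff]
    simp only [hU, hv, Pi.add_apply, Pi.sub_apply, Pi.single_eq_same, Pi.single_eq_of_ne hij,
      Pi.single_eq_of_ne (Ne.symm hij)]
    push_cast
    ring
  have hstep : ∀ s, h.coeff (v s) - h.coeff (v (s + 1)) = U s + U (s + 1) := by
    intro s
    have h1 : ((xpow i 1 - xpow j 1) * h).coeff (v s + Pi.single i 1)
        = ((xpow i 1 + xpow j 1) * (theta i f - theta j f)).coeff (v s + Pi.single i 1) := by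
      rw [hh]
    rw [coeff_sub_mul, coeff_add_mul] at h1
    have e1 : v s + Pi.single i 1 - Pi.single i 1 = v s := by abel
    have e2 : v s + Pi.single i 1 - Pi.single j 1 = v (s + 1) := by
      simp only [hv]
      push_cast
      rw [Pi.single_add, Pi.single_add]
      abel
    rw [e1, e2, hu, hu] at h1
    exact h1
  have hvan : ∃ M, D + 1 ≤ M ∧ h.coeff (v M) = 0 := by
    by_contra hcon
    push Not at hcon
    have hinj : Function.Injective (fun n : ℕ => v (D + 1 + n)) := by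
      intro a b hab
      have h1 := congrFun hab i
      simp only [hv, Pi.add_apply, Pi.sub_apply, Pi.single_eq_same, Pi.single_eq_of_ne hij] at h1
      push_cast at h1
      omega
    exact (Set.infinite_of_injective_forall_mem (s := (h.coeff.support : Set (Fin N → ℤ))) hinj
      (fun n => by
        rw [Finset.mem_coe, Finsupp.mem_support_iff]
        exact hcon _ (by omega))) (Finset.finite_toSet _)
  obtain ⟨M, hM, hM0⟩ := hvan
  obtain ⟨M', rfl⟩ : ∃ M', M = M' + 1 := ⟨M - 1, by omega⟩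
  have hUz : ∀ s, D < s → U s = 0 := by
    intro s hs
    simp only [hU, hv]
    rw [hD s hs, mul_zero]
  have hA : ∀ n, D ≤ n → ∑ s ∈ range n, U (s + 1) = ∑ s ∈ range D, U (s + 1) := by
    intro n hn
    symm
    apply Finset.sum_subset (Finset.range_subset_range.2 hn)
    intro s _ hs
    exact hUz _ (by simp at hs; omega)
  have htel : h.coeff (v 0) - h.coeff (v (M' + 1)) = ∑ s ∈ range (M' + 1), (U s + U (s + 1)) := by
    rw [← Finset.sum_range_sub' (fun s => h.coeff (v s))]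
    exact Finset.sum_congr rfl fun s _ => hstep s
  rw [hM0, sub_zero, hv0, Finset.sum_add_distrib, hA _ (by omega), Finset.sum_range_succ',
    hA _ (by omega)] at htel
  rw [htel]
  have hU0 : U 0 = ((η i : ℂ) - η j) * f.coeff η := by
    simp only [hU, hv0]
    push_cast
    ring
  rw [hU0]
  simp only [hU, hv]
  ring

/-- exponents moved apart -/
def far (ζ : ℕ → ℤ) (i j : ℕ) (s : ℤ) : ℕ → ℤ :=
  if ζ j ≤ ζ i then ζ + (Pi.single i s - Pi.single j s) else ζ + (Pi.single j s - Pi.single i s)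

theorem res_add_single (N : ℕ) (ζ : ℕ → ℤ) (i j : Fin N) (s : ℤ) :
    res N ζ + (Pi.single i s - Pi.single j s)
      = res N (ζ + (Pi.single (i : ℕ) s - Pi.single (j : ℕ) s)) := by
  funext x
  simp only [res, Pi.sub_apply, Pi.add_apply, Pi.single_apply, Fin.ext_iff]

theorem sum_two {M : Type*} [AddCommMonoid M] {N i j : ℕ} (hi : i < N) (hj : j < N) (hij : i ≠ j)
    (F : ℕ → M) :
    ∑ x ∈ range N, F x = F i + (F j + ∑ x ∈ ((range N).erase i).erase j, F x) := by
  rw [← Finset.add_sum_erase (range N) F (mem_range.2 hi),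
    ← Finset.add_sum_erase ((range N).erase i) F (Finset.mem_erase.2 ⟨Ne.symm hij, mem_range.2 hj⟩)]

theorem far_other {ζ : ℕ → ℤ} {i j x : ℕ} {s : ℤ} (hi : x ≠ i) (hj : x ≠ j) :
    far ζ i j s x = ζ x := by
  unfold far
  split_ifs <;> simp [Pi.single_eq_of_ne hi, Pi.single_eq_of_ne hj]

theorem far_i {ζ : ℕ → ℤ} {i j : ℕ} (hij : i ≠ j) (s : ℤ) :
    far ζ i j s i = if ζ j ≤ ζ i then ζ i + s else ζ i - s := by
  unfold far
  split_ifs
  · simp [Pi.single_eq_of_ne hij]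
  · simp [Pi.single_eq_of_ne hij]
    ring

theorem far_j {ζ : ℕ → ℤ} {i j : ℕ} (hij : i ≠ j) (s : ℤ) :
    far ζ i j s j = if ζ j ≤ ζ i then ζ j - s else ζ j + s := by
  unfold far
  split_ifs
  · simp [Pi.single_eq_of_ne hij.symm]
    ring
  · simp [Pi.single_eq_of_ne hij.symm]

theorem sum_far {M : Type*} [AddCommMonoid M] {N i j : ℕ} (hi : i < N) (hj : j < N) (hij : i ≠ j)
    (ζ : ℕ → ℤ) (s : ℤ) (F : ℤ → M) :
    ∑ x ∈ range N, F (far ζ i j s x) = F (far ζ i j s i) + (F (far ζ i j s j)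
      + ∑ x ∈ ((range N).erase i).erase j, F (ζ x)) := by
  rw [sum_two hi hj hij (fun x => F (far ζ i j s x))]
  congr 2
  refine Finset.sum_congr rfl fun x hx => ?_
  rw [Finset.mem_erase, Finset.mem_erase] at hx
  rw [far_other hx.2.1 hx.1]

theorem far_nrm_ge {N i j : ℕ} (hi : i < N) (hj : j < N) (hij : i ≠ j) (ζ : ℕ → ℤ) {s : ℤ}
    (hs : 0 ≤ s) : nrm N ζ ≤ nrm N (far ζ i j s) := by
  unfold nrm
  rw [sum_far hi hj hij ζ s Int.natAbs, sum_two hi hj hij (fun x => (ζ x).natAbs), far_i hij,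
    far_j hij]
  split_ifs <;> omega

theorem far_nrm_big {N i j : ℕ} (hi : i < N) (hj : j < N) (hij : i ≠ j) (ζ : ℕ → ℤ) {s : ℕ} :
    2 * s ≤ nrm N (far ζ i j s) := by
  unfold nrm
  rw [sum_far hi hj hij ζ s Int.natAbs, far_i hij, far_j hij]
  split_ifs <;> omega

theorem far_nrm_zero {N i j : ℕ} (hi : i < N) (hj : j < N) (hij : i ≠ j) {ζ : ℕ → ℤ}
    (h0 : ζ j = 0) {s : ℤ} (hs : 0 < s) : nrm N ζ < nrm N (far ζ i j s) := by
  unfold nrm
  rw [sum_far hi hj hij ζ s Int.natAbs, sum_two hi hj hij (fun x => (ζ x).natAbs), far_i hij,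
    far_j hij, h0]
  split_ifs <;> omega

theorem far_sq {N i j : ℕ} (hi : i < N) (hj : j < N) (hij : i ≠ j) (ζ : ℕ → ℤ) {s : ℤ}
    (hs : 0 < s) : ∑ x ∈ range N, ζ x ^ 2 < ∑ x ∈ range N, (far ζ i j s x) ^ 2 := by
  rw [sum_far hi hj hij ζ s (fun x => x ^ 2), sum_two hi hj hij (fun x => (ζ x) ^ 2), far_i hij,
    far_j hij]
  split_ifs with h
  · nlinarith [mul_nonneg hs.le (sub_nonneg.2 h)]
  · push Not at h
    nlinarith [mul_pos hs (sub_pos.2 h)]

theorem far_coeff {N : ℕ} {f h : LP N} {i j : Fin N} (hij : i < j)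
    (hh : (xpow i 1 - xpow j 1) * h = (xpow i 1 + xpow j 1) * (theta i f - theta j f))
    (ζ : ℕ → ℤ) (D : ℕ) (hD : ∀ ξ : ℕ → ℤ, D < nrm N ξ → f.coeff (res N ξ) = 0) :
    h.coeff (res N ζ) = ((|ζ i - ζ j| : ℤ) : ℂ) * f.coeff (res N ζ)
      + 2 * ∑ s ∈ range D, (((|ζ i - ζ j| : ℤ) : ℂ) + 2 * ((s + 1 : ℕ) : ℂ))
        * f.coeff (res N (far ζ i j ((s + 1 : ℕ) : ℤ))) := by
  have hne : i ≠ j := ne_of_lt hij
  have hne' : (i : ℕ) ≠ (j : ℕ) := fun h => hne (Fin.ext h)
  by_cases hc : ζ j ≤ ζ i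
  · have hfar : ∀ s : ℤ, far ζ i j s = ζ + (Pi.single (i : ℕ) s - Pi.single (j : ℕ) s) := by
      intro s
      unfold far
      rw [if_pos hc]
    have h1 := pair_coeff hne hh (res N ζ) D (by
      intro s hs
      rw [res_add_single, ← hfar]
      apply hD
      have := far_nrm_big i.2 j.2 hne' ζ (s := s)
      omega)
    rw [h1]
    have h2 : ((|ζ i - ζ j| : ℤ) : ℂ) = (res N ζ i : ℂ) - (res N ζ j : ℂ) := by
      rw [abs_of_nonneg (by linarith)]
      push_cast
      rfl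
    rw [h2]
    congr 2
    refine Finset.sum_congr rfl fun s _ => ?_
    rw [res_add_single, ← hfar]
  · have hc' : ζ i ≤ ζ j := by omega
    have hfar : ∀ s : ℤ, far ζ i j s = ζ + (Pi.single (j : ℕ) s - Pi.single (i : ℕ) s) := by
      intro s
      unfold far
      rw [if_neg hc]
    have hh' : (xpow j 1 - xpow i 1) * h = (xpow j 1 + xpow i 1) * (theta j f - theta i f) := by
      linear_combination -hh
    have h1 := pair_coeff hne.symm hh' (res N ζ) D (by
      intro s hs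
      rw [res_add_single, ← hfar]
      apply hD
      have := far_nrm_big i.2 j.2 hne' ζ (s := s)
      omega)
    rw [h1]
    have h2 : ((|ζ i - ζ j| : ℤ) : ℂ) = (res N ζ j : ℂ) - (res N ζ i : ℂ) := by
      rw [abs_of_nonpos (by linarith)]
      push_cast
      simp only [res]
      ring
    rw [h2]
    congr 2
    refine Finset.sum_congr rfl fun s _ => ?_
    rw [res_add_single, ← hfar]

theorem pairSum_congr {A : Type*} [AddCommMonoid A] {N : ℕ} {F G : Fin N → Fin N → A}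
    (h : ∀ i j, i < j → F i j = G i j) : pairSum N F = pairSum N G := by
  unfold pairSum
  refine Finset.sum_congr rfl fun i _ => Finset.sum_congr rfl fun j _ => ?_
  split_ifs with hij
  · exact h i j hij
  · rfl

theorem pairSum_coeff {N : ℕ} (h : Fin N → Fin N → LP N) (η : Fin N → ℤ) :
    (pairSum N h).coeff η = pairSum N (fun i j => (h i j).coeff η) := by
  unfold pairSum
  rw [AddMonoidAlgebra.coeff_sum, Finsupp.finsetSum_apply]
  refine Finset.sum_congr rfl fun i _ => ?_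
  rw [AddMonoidAlgebra.coeff_sum, Finsupp.finsetSum_apply]
  refine Finset.sum_congr rfl fun j _ => ?_
  split_ifs <;> simp

theorem PS_add {N : ℕ} (F G : ℕ → ℕ → ℂ) : PS N (fun i j => F i j + G i j) = PS N F + PS N G := by
  unfold PS
  simp_rw [Finset.sum_add_distrib]

theorem PS_mul {N : ℕ} (c : ℂ) (F : ℕ → ℕ → ℂ) : PS N (fun i j => c * F i j) = c * PS N F := by
  unfold PS
  simp_rw [Finset.mul_sum]

theorem eig_coeff {k E : ℂ} {N : ℕ} {f : LP N} {h : Fin N → Fin N → LP N}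
    (hh : ∀ i j, i < j → (xpow i 1 - xpow j 1) * h i j
      = (xpow i 1 + xpow j 1) * (theta i f - theta j f))
    (he : ∑ j, theta j (theta j f) - k • pairSum N h = E • f)
    (D : ℕ) (hD : ∀ ξ : ℕ → ℤ, D < nrm N ξ → f.coeff (res N ξ) = 0) (ζ : ℕ → ℤ) :
    (E - (((∑ x ∈ range N, ζ x ^ 2 : ℤ) : ℂ)) + k * PS N (fun i j => ((|ζ i - ζ j| : ℤ) : ℂ)))
        * f.coeff (res N ζ)
      = -(2 * k) * PS N (fun i j => ∑ s ∈ range D, (((|ζ i - ζ j| : ℤ) : ℂ)
          + 2 * ((s + 1 : ℕ) : ℂ)) * f.coeff (res N (far ζ i j ((s + 1 : ℕ) : ℤ)))) := by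
  have h1 := congrArg (fun g : LP N => g.coeff (res N ζ)) he
  simp only [AddMonoidAlgebra.coeff_sub, Finsupp.sub_apply, AddMonoidAlgebra.coeff_smul,
    Finsupp.smul_apply, smul_eq_mul] at h1
  rw [pairSum_coeff, pairSum_congr (fun i j hij => far_coeff hij (hh i j hij) ζ D hD),
    pairSum_eq_PS N (fun i j => ((|ζ i - ζ j| : ℤ) : ℂ) * f.coeff (res N ζ)
      + 2 * ∑ s ∈ range D, (((|ζ i - ζ j| : ℤ) : ℂ) + 2 * ((s + 1 : ℕ) : ℂ))
        * f.coeff (res N (far ζ i j ((s + 1 : ℕ) : ℤ)))), PS_add, PS_mul] at h1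
  have h2 : (∑ j : Fin N, theta j (theta j f)).coeff (res N ζ)
      = ((∑ x ∈ range N, ζ x ^ 2 : ℤ) : ℂ) * f.coeff (res N ζ) := by
    rw [AddMonoidAlgebra.coeff_sum, Finsupp.finsetSum_apply, Finset.sum_range]
    push_cast
    rw [Finset.sum_mul]
    refine Finset.sum_congr rfl fun j _ => ?_
    rw [theta_coeff, theta_coeff]
    simp only [res]
    ring
  have h3 : PS N (fun i j => ((|ζ i - ζ j| : ℤ) : ℂ) * f.coeff (res N ζ))
      = PS N (fun i j => ((|ζ i - ζ j| : ℤ) : ℂ)) * f.coeff (res N ζ) := by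
    unfold PS
    rw [Finset.sum_mul]
    refine Finset.sum_congr rfl fun i _ => ?_
    rw [Finset.sum_mul]
  rw [h2, h3] at h1
  linear_combination -h1

theorem PS_restrict {L N : ℕ} (hLN : L ≤ N) {F : ℕ → ℕ → ℂ}
    (hF : ∀ i j, i < j → j < N → L ≤ j → F i j = 0) : PS N F = PS L F := by
  unfold PS
  symm
  apply Finset.sum_subset (Finset.range_subset_range.2 hLN)
  intro j hj hj'
  rw [Finset.mem_range] at hj hj'
  exact Finset.sum_eq_zero fun i hi => hF i j (Finset.mem_range.1 hi) hj (by omega)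

theorem PS_abs {L N : ℕ} (hLN : L ≤ N) {ζ : ℕ → ℤ} (hζ : ∀ i, L ≤ i → ζ i = 0) :
    PS N (fun i j => |ζ i - ζ j|) = PS L (fun i j => |ζ i - ζ j|) + ((N : ℤ) - L) * nrm L ζ := by
  induction N, hLN using Nat.le_induction with
  | base => simp
  | succ n hn ih =>
    have h1 : PS (n + 1) (fun i j => |ζ i - ζ j|)
        = PS n (fun i j => |ζ i - ζ j|) + ∑ i ∈ range n, |ζ i - ζ n| := by
      unfold PS
      rw [Finset.sum_range_succ]
    have h2 : ∑ i ∈ range n, |ζ i - ζ n| = (nrm L ζ : ℤ) := by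
      rw [← nrm_stable hn hζ, hζ n hn]
      unfold nrm
      push_cast
      refine Finset.sum_congr rfl fun i _ => ?_
      rw [sub_zero]
    rw [h1, h2, ih]
    push_cast
    ring

end Pool.Agent.R310.JL
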