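import Pool.Agent.R310.JL.Coef

/-!
The core theorem: the degree in `X 0` is bounded by the degree of the denominator.
-/

namespace Pool.Agent.R310.JL

open Finset MvPolynomial

theorem nrm_eq_fin (N : ℕ) (ζ : ℕ → ℤ) : nrm N ζ = ∑ i : Fin N, (res N ζ i).natAbs := by
  unfold nrm res
  rw [Finset.sum_range]

theorem IsJack.nrm_le {k : ℂ} {lam mu : List ℕ} {N : ℕ} (hN : lam.length + mu.length ≤ N)
    {f : LP N} (hf : IsJack k (chi N lam mu) f) {ζ : ℕ → ℤ} (h : dd lam mu < nrm N ζ) :
    f.coeff (res N ζ) = 0 := by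
  by_contra h0
  have := nrm_le_of_dom hN (hf.total _ h0) (hf.dom _ h0)
  rw [← nrm_eq_fin] at this
  omega

theorem Eig_chi (k : ℂ) {lam mu : List ℕ} {N : ℕ} (hN : lam.length + mu.length ≤ N) :
    Eig k (chi N lam mu) = (sq2 lam mu : ℂ) - k * ((N : ℂ) * dd lam mu - cc lam mu) := by
  unfold Eig
  have h1 : ((∑ i, chi N lam mu i ^ 2 : ℤ) : ℂ) = (sq2 lam mu : ℂ) := by rw [chi_sq hN]
  have h2 : ((pairSum N (fun i j => chi N lam mu i - chi N lam mu j) : ℤ) : ℂ)
      = (((N : ℤ) * dd lam mu - cc lam mu : ℤ) : ℂ) := by rw [chi_pair hN]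
  have h3 : ((pairSum N (fun i j => chi N lam mu i - chi N lam mu j) : ℤ) : ℂ)
      = pairSum N (fun i j => ((chi N lam mu i : ℂ) - (chi N lam mu j : ℂ))) := by
    unfold pairSum
    push_cast
    refine Finset.sum_congr rfl fun i _ => Finset.sum_congr rfl fun j _ => ?_
    split_ifs <;> push_cast <;> ring
  rw [← h3, h2, ← h1]
  push_cast
  ring

theorem sq_le_nrm (L : ℕ) (ζ : ℕ → ℤ) : ∑ x ∈ range L, ζ x ^ 2 ≤ (nrm L ζ : ℤ) ^ 2 := by
  unfold nrm
  induction L with
  | zero => simp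
  | succ n ih =>
    rw [Finset.sum_range_succ, Finset.sum_range_succ]
    push_cast at ih ⊢
    have h1 : 0 ≤ ∑ x ∈ range n, |ζ x| := Finset.sum_nonneg fun _ _ => abs_nonneg _
    have h2 : 0 ≤ |ζ n| := abs_nonneg _
    have h3 : ζ n ^ 2 = |ζ n| ^ 2 := (sq_abs _).symm
    nlinarith [mul_nonneg h1 h2]

theorem sq_fin {L N : ℕ} (hLN : L ≤ N) {ζ : ℕ → ℤ} (hζ : ∀ i, L ≤ i → ζ i = 0) :
    ∑ i : Fin N, res N ζ i ^ 2 = ∑ x ∈ range L, ζ x ^ 2 := by
  have h1 : ∑ x ∈ range L, ζ x ^ 2 = ∑ x ∈ range N, ζ x ^ 2 := by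
    apply Finset.sum_subset (Finset.range_subset_range.2 hLN)
    intro x _ hx
    rw [hζ x (by simpa using hx)]
    rfl
  rw [h1, Finset.sum_range]
  rfl

theorem sq_range {L N : ℕ} (hLN : L ≤ N) {ζ : ℕ → ℤ} (hζ : ∀ i, L ≤ i → ζ i = 0) :
    ∑ x ∈ range N, ζ x ^ 2 = ∑ x ∈ range L, ζ x ^ 2 := by
  symm
  apply Finset.sum_subset (Finset.range_subset_range.2 hLN)
  intro x _ hx
  rw [hζ x (by simpa using hx)]
  rfl

theorem far_support {L : ℕ} {ζ : ℕ → ℤ} (hζ : ∀ i, L ≤ i → ζ i = 0) {i j : ℕ} (hi : i < L)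
    (hj : j < L) (s : ℤ) : ∀ x, L ≤ x → far ζ i j s x = 0 := by
  intro x hx
  rw [far_other (by omega) (by omega), hζ x hx]

/-- eventually polynomial with vanishing `m`-th coefficient -/
def Sm (m : ℕ) (g : ℕ → ℂ) : Prop :=
  ∃ R : Polynomial ℂ, R.coeff m = 0 ∧ ∀ᶠ N : ℕ in Filter.atTop, g N = R.eval (N : ℂ)

theorem Sm.congr {m : ℕ} {g g' : ℕ → ℂ} (h : Sm m g) (hg : ∀ᶠ N : ℕ in Filter.atTop, g' N = g N) :
    Sm m g' := by
  obtain ⟨R, h1, h2⟩ := h
  refine ⟨R, h1, ?_⟩
  filter_upwards [h2, hg] with N h3 h4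
  rw [h4, h3]

theorem Sm.zero (m : ℕ) : Sm m (fun _ => 0) :=
  ⟨0, by simp, Filter.Eventually.of_forall fun N => by simp⟩

theorem Sm.mul {m : ℕ} {g : ℕ → ℂ} (h : Sm m g) (c : ℂ) : Sm m (fun N => c * g N) := by
  obtain ⟨R, h1, h2⟩ := h
  refine ⟨Polynomial.C c * R, by simp [h1], ?_⟩
  filter_upwards [h2] with N h3
  rw [h3]
  simp

theorem Sm.add {m : ℕ} {g g' : ℕ → ℂ} (h : Sm m g) (h' : Sm m g') : Sm m (fun N => g N + g' N) := by
  obtain ⟨R, h1, h2⟩ := h
  obtain ⟨R', h1', h2'⟩ := h'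
  refine ⟨R + R', by simp [h1, h1'], ?_⟩
  filter_upwards [h2, h2'] with N h3 h4
  rw [h3, h4]
  simp

theorem Sm.sum {m : ℕ} {ι : Type*} (s : Finset ι) {g : ι → ℕ → ℂ} (h : ∀ i ∈ s, Sm m (g i)) :
    Sm m (fun N => ∑ i ∈ s, g i N) := by
  classical
  induction s using Finset.induction_on with
  | empty => simpa using Sm.zero m
  | insert a s ha ih =>
    simp_rw [Finset.sum_insert ha]
    exact (h a (Finset.mem_insert_self a s)).add
      (ih fun i hi => h i (Finset.mem_insert_of_mem hi))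

theorem coeff_stable {G : MvPolynomial ℤ ℂ} {d : ℕ} (hG : ∀ κ ∈ G.support, wt κ ≤ d)
    {L N : ℕ} (hLN : L ≤ N) {ζ : ℕ → ℤ} (hζ : ∀ i, L ≤ i → ζ i = 0) (hn : nrm L ζ = d) :
    (Phi N G).coeff (res N ζ) = (RP G (fun κ => (cn L (ltr κ) ζ : ℂ))).eval (N : ℂ) := by
  rw [coeff_Phi, RP_eval]
  refine Finset.sum_congr rfl fun κ hκ => ?_
  rw [cn_stable hLN (ltr_ne_zero κ) hζ (by rw [wl_ltr, hn]; exact hG κ hκ)]
  ring

theorem core {k : ℂ} (hk : ∀ q : ℚ, k ≠ (q : ℂ)) (lam mu : List ℕ)
    (G : MvPolynomial ℤ ℂ) (q : Polynomial ℂ)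
    (hG : ∀ᶠ N : ℕ in Filter.atTop, ∃ P : LP N, IsJack k (chi N lam mu) P ∧
      Phi N G = q.eval (N : ℂ) • P) : Low q.natDegree G := by
  have hk0 : k ≠ 0 := by simpa using hk 0
  set d := dd lam mu with hd
  -- large norms
  have hbig : ∀ᶠ N : ℕ in Filter.atTop, ∀ ξ : ℕ → ℤ, d < nrm N ξ →
      (Phi N G).coeff (res N ξ) = 0 := by
    filter_upwards [hG, Filter.eventually_ge_atTop (lam.length + mu.length)] with N h1 h2 ξ h3
    obtain ⟨P, hP, hPG⟩ := h1
    rw [hPG, AddMonoidAlgebra.coeff_smul, Finsupp.smul_apply, hP.nrm_le h2 h3, smul_zero]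
  have hwt : ∀ κ ∈ G.support, wt κ ≤ d := by
    have h1 := wt_lt_of_vanish G (d + 1) (fun ζ L hζ hn => by
      filter_upwards [hbig, Filter.eventually_ge_atTop L] with N h2 h3
      apply h2
      rw [nrm_stable h3 hζ]
      omega)
    intro κ hκ
    have := h1 κ hκ
    omega
  -- the eigenvalue equation for `G`
  set S : Finset ℤ := G.vars with hSdef
  have hS : ∀ b ∉ S, MvPolynomial.pderiv b G = 0 := fun b hb => pderiv_eq_zero_of_notMem_vars hb
  have hE : ∀ᶠ N : ℕ in Filter.atTop, ∃ h : Fin N → Fin N → LP N,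
      (∀ i j, i < j → (xpow i 1 - xpow j 1) * h i j
        = (xpow i 1 + xpow j 1) * (theta i (Phi N G) - theta j (Phi N G))) ∧
      ∑ j, theta j (theta j (Phi N G)) - k • pairSum N h
        = ((sq2 lam mu : ℂ) - k * ((N : ℂ) * d - cc lam mu)) • Phi N G := by
    filter_upwards [hG, Filter.eventually_ge_atTop (lam.length + mu.length)] with N h1 h2
    obtain ⟨P, hP, hPG⟩ := h1
    obtain ⟨h, h3, h4⟩ := hP.eig
    refine ⟨fun i j => q.eval (N : ℂ) • h i j, ?_, ?_⟩
    · intro i j hij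
      rw [hPG, theta_smul, theta_smul, ← smul_sub, mul_smul_comm, mul_smul_comm, h3 i j hij]
    · rw [← Eig_chi k h2, hPG]
      have h5 : pairSum N (fun i j => q.eval (N : ℂ) • h i j) = q.eval (N : ℂ) • pairSum N h := by
        unfold pairSum
        rw [Finset.smul_sum]
        refine Finset.sum_congr rfl fun i _ => ?_
        rw [Finset.smul_sum]
        refine Finset.sum_congr rfl fun j _ => ?_
        split_ifs <;> simp
      rw [h5]
      simp_rw [theta_smul]
      rw [← Finset.smul_sum, smul_comm k, ← smul_sub, h4, smul_comm]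
  have hLL : LL k S G = C ((sq2 lam mu : ℂ) + k * cc lam mu) * G + (-(k * d)) • (X 0 * G) := by
    rw [← sub_eq_zero]
    apply eq_zero_of_Phi
    filter_upwards [hE] with N h1
    obtain ⟨h, h2, h3⟩ := h1
    rw [map_sub, ← intertwine hS h2, h3, map_add, map_mul, map_smul, map_mul, Phi_X, psm_zero]
    have h4 : Phi N (C ((sq2 lam mu : ℂ) + k * cc lam mu))
        = algebraMap ℂ (LP N) ((sq2 lam mu : ℂ) + k * cc lam mu) := by
      rw [← MvPolynomial.algebraMap_eq, AlgHom.commutes]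
    rw [h4, ← Algebra.smul_def]
    have h5 : (N : LP N) * Phi N G = (N : ℂ) • Phi N G := by
      rw [Algebra.smul_def, map_natCast]
    rw [h5, smul_smul, ← add_smul, ← sub_smul]
    have h6 : (sq2 lam mu : ℂ) - k * ((N : ℂ) * d - cc lam mu)
        - ((sq2 lam mu : ℂ) + k * cc lam mu + -(k * d) * N) = 0 := by ring
    rw [h6, zero_smul]
  -- contradiction
  by_contra hcon
  have hne : G.support.Nonempty := by
    rw [Finset.nonempty_iff_ne_empty]
    intro h
    rw [support_eq_empty] at h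
    apply hcon
    intro ν _
    rw [h, coeff_zero]
  obtain ⟨κ₀, hκ₀, hmax₀⟩ := Finset.exists_max_image G.support (fun κ => κ 0) hne
  set m := κ₀ 0 with hm
  have hqm : q.natDegree < m := by
    by_contra h1
    apply hcon
    intro ν hν
    by_contra h2
    have := hmax₀ ν (mem_support_iff.2 h2)
    omega
  have hlow : Low m G := by
    intro ν hν
    by_contra h2
    have := hmax₀ ν (mem_support_iff.2 h2)
    omega
  obtain ⟨κ₁, hκ₁, hmax₁⟩ := Finset.exists_max_image (G.support.filter fun κ => κ 0 = m) wt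
    ⟨κ₀, Finset.mem_filter.2 ⟨hκ₀, rfl⟩⟩
  rw [Finset.mem_filter] at hκ₁
  have hw₁ : wt κ₁ = d := top_weight hk0 hS hLL hlow hκ₁.1 hκ₁.2
    (fun κ' h1 h2 => hmax₁ κ' (Finset.mem_filter.2 ⟨h1, h2⟩))
  obtain ⟨κ, hκ, ζ₀, L, hζ₀, hn₀, _, hcne, hdet⟩ := exists_detect
    (G.support.filter fun κ => κ 0 = m ∧ wt κ = d) ⟨κ₁, Finset.mem_filter.2 ⟨hκ₁.1, hκ₁.2, hw₁⟩⟩
  rw [Finset.mem_filter] at hκ
  -- the induction
  have hind : ∀ n : ℕ, ∀ ζ : ℕ → ℤ, (∀ i, L ≤ i → ζ i = 0) → nrm L ζ = d →
      (d : ℤ) ^ 2 - ∑ x ∈ range L, ζ x ^ 2 < n →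
      Sm m (fun N => (Phi N G).coeff (res N ζ)) := by
    intro n
    induction n with
    | zero =>
      intro ζ _ hn h
      have := sq_le_nrm L ζ
      rw [hn] at this
      exfalso
      push_cast at h
      linarith
    | succ n ih =>
      intro ζ hζ hn hlt
      rcases lt_trichotomy (∑ x ∈ range L, ζ x ^ 2) (sq2 lam mu) with hc | hc | hc
      · -- main case
        set A : ℤ := PS L (fun i j => |ζ i - ζ j|) with hA
        set e : ℂ := (((sq2 lam mu - ∑ x ∈ range L, ζ x ^ 2 : ℤ)) : ℂ)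
          + k * ((cc lam mu + A - L * d : ℤ) : ℂ) with he
        have hene : e ≠ 0 := by
          intro h0
          by_cases hz : (cc lam mu + A - L * d : ℤ) = 0
          · rw [he, hz] at h0
            simp only [Int.cast_zero, mul_zero, add_zero] at h0
            have : (sq2 lam mu - ∑ x ∈ range L, ζ x ^ 2 : ℤ) = 0 := by exact_mod_cast h0
            omega
          · apply hk (-((sq2 lam mu - ∑ x ∈ range L, ζ x ^ 2 : ℤ) : ℚ)
              / ((cc lam mu + A - L * d : ℤ) : ℚ))
            rw [Rat.cast_div, Rat.cast_neg, Rat.cast_intCast, Rat.cast_intCast]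
            rw [eq_div_iff (by exact_mod_cast hz)]
            rw [he] at h0
            linear_combination h0
        have hterm : ∀ j ∈ range L, ∀ i ∈ range j, ∀ s ∈ range d,
            Sm m (fun N => (((|ζ i - ζ j| : ℤ) : ℂ) + 2 * ((s + 1 : ℕ) : ℂ))
              * (Phi N G).coeff (res N (far ζ i j ((s + 1 : ℕ) : ℤ)))) := by
          intro j hj i hi s _
          rw [Finset.mem_range] at hj hi
          have hs1 : (0 : ℤ) < ((s + 1 : ℕ) : ℤ) := by positivity
          apply Sm.mul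
          have hge := far_nrm_ge (i := i) (j := j) (N := L) (by omega) hj (by omega) ζ hs1.le
          have hsup := far_support hζ (i := i) (j := j) (by omega) hj ((s + 1 : ℕ) : ℤ)
          rw [hn] at hge
          rcases lt_or_eq_of_le hge with h1 | h1
          · apply (Sm.zero m).congr
            filter_upwards [hbig, Filter.eventually_ge_atTop L] with N h2 h3
            apply h2
            rw [nrm_stable h3 hsup]
            exact h1
          · apply ih _ hsup h1.symm
            have h2 := far_sq (i := i) (j := j) (N := L) (by omega) hj (by omega) ζ hs1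
            push_cast at hlt h2 ⊢
            linarith
        have hsum : Sm m (fun N => e⁻¹ * (-(2 * k) * ∑ j ∈ range L, ∑ i ∈ range j, ∑ s ∈ range d,
            (((|ζ i - ζ j| : ℤ) : ℂ) + 2 * ((s + 1 : ℕ) : ℂ))
              * (Phi N G).coeff (res N (far ζ i j ((s + 1 : ℕ) : ℤ))))) := by
          apply Sm.mul
          apply Sm.mul
          apply Sm.sum
          intro j hj
          apply Sm.sum
          intro i hi
          apply Sm.sum
          intro s hs
          exact hterm j hj i hi s hs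
        apply hsum.congr
        filter_upwards [hE, hbig, Filter.eventually_ge_atTop L] with N h1 h2 h3
        obtain ⟨h, h4, h5⟩ := h1
        have h6 := eig_coeff h4 h5 d h2 ζ
        rw [PS_restrict (L := L) h3 (F := fun i j => ∑ s ∈ range d, (((|ζ i - ζ j| : ℤ) : ℂ)
          + 2 * ((s + 1 : ℕ) : ℂ)) * (Phi N G).coeff (res N (far ζ i j ((s + 1 : ℕ) : ℤ))))] at h6
        · have h7 : PS N (fun i j => ((|ζ i - ζ j| : ℤ) : ℂ))
              = ((PS N (fun i j => |ζ i - ζ j|) : ℤ) : ℂ) := by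
            unfold PS
            push_cast
            rfl
          rw [h7, PS_abs h3 hζ, hn, sq_range h3 hζ] at h6
          have h8 : (sq2 lam mu : ℂ) - k * ((N : ℂ) * d - cc lam mu)
              - (((∑ x ∈ range L, ζ x ^ 2 : ℤ)) : ℂ)
              + k * (((PS L (fun i j => |ζ i - ζ j|) + ((N : ℤ) - L) * d : ℤ)) : ℂ) = e := by
            rw [he, ← hA]
            push_cast
            ring
          rw [h8] at h6
          rw [eq_comm, inv_mul_eq_iff_eq_mul₀ hene, h6]
          rfl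
        · intro i j hij hjN hLj
          apply Finset.sum_eq_zero
          intro s _
          have hs1 : (0 : ℤ) < ((s + 1 : ℕ) : ℤ) := by positivity
          have h9 := far_nrm_zero (i := i) (j := j) (N := N) (by omega) hjN (by omega)
            (hζ j hLj) hs1
          rw [nrm_stable h3 hζ, hn] at h9
          rw [h2 _ h9, mul_zero]
      · -- borderline case
        set R := RP G (fun κ => (cn L (ltr κ) ζ : ℂ)) with hR
        have h0 : R * (R - q) = 0 := by
          apply poly_eq_of_eventually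
          filter_upwards [hG, Filter.eventually_ge_atTop (lam.length + mu.length),
            Filter.eventually_ge_atTop L] with N h1 h2 h3
          obtain ⟨P, hP, hPG⟩ := h1
          rw [Polynomial.eval_mul, Polynomial.eval_sub, Polynomial.eval_zero, hR,
            ← coeff_stable hwt h3 hζ hn, hPG, AddMonoidAlgebra.coeff_smul, Finsupp.smul_apply,
            smul_eq_mul]
          by_cases h4 : P.coeff (res N ζ) = 0
          · rw [h4]; ring
          · have h5 := (hP.sq_le h4).2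
            rw [sq_fin h3 hζ, chi_sq h2] at h5
            rw [h5 hc]
            ring
        have h1 : R.coeff m = 0 := by
          rcases mul_eq_zero.1 h0 with h2 | h2
          · rw [h2]; simp
          · rw [sub_eq_zero.1 h2]
            exact Polynomial.coeff_eq_zero_of_natDegree_lt hqm
        refine ⟨R, h1, ?_⟩
        filter_upwards [Filter.eventually_ge_atTop L] with N h3
        exact coeff_stable hwt h3 hζ hn
      · -- too large
        apply (Sm.zero m).congr
        filter_upwards [hG, Filter.eventually_ge_atTop (lam.length + mu.length),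
          Filter.eventually_ge_atTop L] with N h1 h2 h3
        obtain ⟨P, hP, hPG⟩ := h1
        rw [hPG, AddMonoidAlgebra.coeff_smul, Finsupp.smul_apply, smul_eq_mul]
        by_cases h4 : P.coeff (res N ζ) = 0
        · rw [h4, mul_zero]
        · have h5 := (hP.sq_le h4).1
          rw [sq_fin h3 hζ, chi_sq h2] at h5
          omega
  have hn₀' : nrm L ζ₀ = d := by rw [hn₀, hκ.2.2]
  obtain ⟨R, hRm, hR⟩ := hind ((d : ℤ) ^ 2 - ∑ x ∈ range L, ζ₀ x ^ 2 + 1).toNat ζ₀ hζ₀ hn₀'
    (by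
      have h1 := sq_le_nrm L ζ₀
      rw [hn₀'] at h1
      rw [Int.toNat_of_nonneg (by linarith)]
      linarith)
  have h1 : R = RP G (fun κ => (cn L (ltr κ) ζ₀ : ℂ)) := by
    apply poly_eq_of_eventually
    filter_upwards [hR, Filter.eventually_ge_atTop L] with N h2 h3
    rw [← h2, coeff_stable hwt h3 hζ₀ hn₀']
  rw [h1, RP_coeff, Finset.sum_eq_single κ] at hRm
  · rw [if_pos hκ.2.1] at hRm
    rcases mul_eq_zero.1 hRm with h2 | h2
    · exact (mem_support_iff.1 hκ.1) h2
    · exact hcne (by exact_mod_cast h2)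
  · intro κ' hκ' hne'
    split_ifs with h2
    · rcases lt_or_eq_of_le (hwt κ' hκ') with h3 | h3
      · rw [cn_eq_zero_of_wt_lt (by rw [hn₀']; exact h3)]
        simp
      · rw [hdet L le_rfl κ' (Finset.mem_filter.2 ⟨hκ', h2, h3⟩)]
        · simp
        · intro h4
          exact hne' (eq_of_erase h4 (by rw [h2, hκ.2.1]))
    · rfl
  · intro h2
    exact absurd hκ.1 h2

end Pool.Agent.R310.JL
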