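import Pool.Agent.R310.JL.Basic

/-!
Monomial coefficients of products of power sums.
-/

namespace Pool.Agent.R310.JL

open Finset

/-- restriction of an exponent to the first `N` variables -/
def res (N : ℕ) (ζ : ℕ → ℤ) : Fin N → ℤ := fun i => ζ i

/-- number of ways to distribute the letters of a list among `N` positions with sums `ζ` -/
def cn (N : ℕ) : List ℤ → (ℕ → ℤ) → ℕ
  | [], ζ => if ∀ i < N, ζ i = 0 then 1 else 0
  | a :: s, ζ => ∑ j ∈ range N, cn N s (ζ - Pi.single j a)

/-- weight of a list -/
def wl : List ℤ → ℕ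
  | [] => 0
  | a :: s => a.natAbs + wl s

/-- `ℓ¹` norm -/
def nrm (N : ℕ) (ζ : ℕ → ℤ) : ℕ := ∑ i ∈ range N, (ζ i).natAbs

theorem res_sub_single (N : ℕ) (ζ : ℕ → ℤ) (j : Fin N) (a : ℤ) :
    res N ζ - Pi.single j a = res N (ζ - Pi.single (j : ℕ) a) := by
  funext i
  simp only [res, Pi.sub_apply, Pi.single_apply, Fin.ext_iff]

theorem coeff_prod_psm (N : ℕ) (s : List ℤ) (ζ : ℕ → ℤ) :
    ((s.map (psm N)).prod).coeff (res N ζ) = (cn N s ζ : ℂ) := by
  induction s generalizing ζ with
  | nil =>
    simp only [List.map_nil, List.prod_nil, cn, AddMonoidAlgebra.one_def,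
      AddMonoidAlgebra.coeff_single, Finsupp.single_apply]
    have : ((0 : Fin N → ℤ) = res N ζ) ↔ (∀ i < N, ζ i = 0) := by
      constructor
      · intro h i hi
        have := congrFun h ⟨i, hi⟩
        simpa [res] using this.symm
      · intro h
        funext i
        simp [res, h i i.2]
    by_cases h : ∀ i < N, ζ i = 0
    · rw [if_pos (this.2 h), if_pos h]; simp
    · rw [if_neg (fun h' => h (this.1 h')), if_neg h]; simp
  | cons a s ih =>
    rw [List.map_cons, List.prod_cons, coeff_psm_mul]
    simp only [cn, Nat.cast_sum]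
    rw [Finset.sum_range]
    refine Finset.sum_congr rfl fun j _ => ?_
    rw [res_sub_single, ih]

theorem nrm_sub_single_le (N : ℕ) (ζ : ℕ → ℤ) (j : ℕ) (a : ℤ) :
    nrm N ζ ≤ nrm N (ζ - Pi.single j a) + a.natAbs := by
  unfold nrm
  by_cases hj : j < N
  · have hm : j ∈ range N := mem_range.2 hj
    rw [← Finset.add_sum_erase _ _ hm, ← Finset.add_sum_erase _ _ hm]
    have h1 : ∑ x ∈ (range N).erase j, (ζ x).natAbs
        = ∑ x ∈ (range N).erase j, ((ζ - Pi.single j a : ℕ → ℤ) x).natAbs := by
      refine Finset.sum_congr rfl fun x hx => ?_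
      rw [Pi.sub_apply, Pi.single_eq_of_ne (Finset.ne_of_mem_erase hx), sub_zero]
    rw [h1, Pi.sub_apply, Pi.single_eq_same]
    omega
  · have h1 : ∑ x ∈ range N, (ζ x).natAbs
        = ∑ x ∈ range N, ((ζ - Pi.single j a : ℕ → ℤ) x).natAbs := by
      refine Finset.sum_congr rfl fun x hx => ?_
      have : x ≠ j := by
        rintro rfl
        exact hj (mem_range.1 hx)
      rw [Pi.sub_apply, Pi.single_eq_of_ne this, sub_zero]
    rw [h1]
    omega

theorem cn_ne_zero_nrm {N : ℕ} {s : List ℤ} {ζ : ℕ → ℤ} (h : cn N s ζ ≠ 0) :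
    nrm N ζ ≤ wl s := by
  induction s generalizing ζ with
  | nil =>
    simp only [cn] at h
    split_ifs at h with h'
    · unfold nrm
      rw [Finset.sum_eq_zero]
      · exact Nat.zero_le _
      · intro i hi
        rw [h' i (mem_range.1 hi)]; rfl
    · exact absurd rfl h
  | cons a s ih =>
    simp only [cn] at h
    obtain ⟨j, _, hj⟩ := Finset.exists_ne_zero_of_sum_ne_zero h
    have h1 := ih hj
    have h2 := nrm_sub_single_le N ζ j a
    simp only [wl]
    omega

theorem nrm_sub_single_outside {N : ℕ} {ζ : ℕ → ℤ} {j : ℕ} (hj : j < N) (h0 : ζ j = 0) (a : ℤ) :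
    nrm N (ζ - Pi.single j a) = nrm N ζ + a.natAbs := by
  unfold nrm
  have hm : j ∈ range N := mem_range.2 hj
  rw [← Finset.add_sum_erase _ _ hm, ← Finset.add_sum_erase (range N) (fun x => (ζ x).natAbs) hm]
  have h1 : ∑ x ∈ (range N).erase j, (ζ x).natAbs
      = ∑ x ∈ (range N).erase j, ((ζ - Pi.single j a : ℕ → ℤ) x).natAbs := by
    refine Finset.sum_congr rfl fun x hx => ?_
    rw [Pi.sub_apply, Pi.single_eq_of_ne (Finset.ne_of_mem_erase hx), sub_zero]
  rw [h1, Pi.sub_apply, Pi.single_eq_same, h0]
  simp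
  omega

theorem nrm_stable {L N : ℕ} (hLN : L ≤ N) {ζ : ℕ → ℤ} (hζ : ∀ i, L ≤ i → ζ i = 0) :
    nrm N ζ = nrm L ζ := by
  unfold nrm
  symm
  apply Finset.sum_subset (Finset.range_subset_range.2 hLN)
  intro x _ hx
  rw [hζ x (by simpa using hx)]
  rfl

theorem cn_stable {L N : ℕ} (hLN : L ≤ N) {s : List ℤ} (hs : ∀ a ∈ s, a ≠ 0) {ζ : ℕ → ℤ}
    (hζ : ∀ i, L ≤ i → ζ i = 0) (hw : wl s ≤ nrm L ζ) : cn N s ζ = cn L s ζ := by
  induction s generalizing ζ with
  | nil =>
    simp only [cn]
    congr 1
    apply propext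
    constructor
    · intro h i hi
      exact h i (lt_of_lt_of_le hi hLN)
    · intro h i _
      by_cases hi : i < L
      · exact h i hi
      · exact hζ i (not_lt.1 hi)
  | cons a s ih =>
    simp only [cn]
    simp only [wl] at hw
    have ha : a ≠ 0 := hs a (by simp)
    have hs' : ∀ b ∈ s, b ≠ 0 := fun b hb => hs b (by simp [hb])
    symm
    have h1 : ∑ j ∈ range L, cn L s (ζ - Pi.single j a)
        = ∑ j ∈ range L, cn N s (ζ - Pi.single j a) := by
      refine Finset.sum_congr rfl fun j hj => ?_
      rw [mem_range] at hj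
      symm
      apply ih hs'
      · intro i hi
        rw [Pi.sub_apply, hζ i hi, Pi.single_eq_of_ne (by omega)]
        rfl
      · have := nrm_sub_single_le L ζ j a
        omega
    rw [h1]
    apply Finset.sum_subset (Finset.range_subset_range.2 hLN)
    intro j hj hj'
    rw [mem_range] at hj hj'
    by_contra hne
    have h2 := cn_ne_zero_nrm hne
    rw [nrm_sub_single_outside hj (hζ j (by omega)), nrm_stable hLN hζ] at h2
    have : 0 < a.natAbs := Int.natAbs_pos.2 ha
    omega

/-- the multiset of nonzero values -/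
def vals (N : ℕ) (ζ : ℕ → ℤ) : Multiset ℤ := ((range N).val.map ζ).filter (· ≠ 0)

/-- nonzero values away from `j` -/
def rest (N : ℕ) (j : ℕ) (ζ : ℕ → ℤ) : Multiset ℤ :=
  (((range N).erase j).val.map ζ).filter (· ≠ 0)

theorem vals_eq {N j : ℕ} (hj : j < N) (ζ : ℕ → ℤ) :
    vals N ζ = (if ζ j ≠ 0 then {ζ j} else 0) + rest N j ζ := by
  unfold vals rest
  have h1 : (range N).val = j ::ₘ ((range N).erase j).val := by
    rw [Finset.erase_val, Multiset.cons_erase]
    exact mem_range.2 hj
  conv_lhs => rw [h1]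
  rw [Multiset.map_cons]
  by_cases h : ζ j ≠ 0
  · rw [Multiset.filter_cons_of_pos (p := fun x : ℤ => x ≠ 0) _ h, if_pos h,
      Multiset.singleton_add]
  · rw [Multiset.filter_cons_of_neg (p := fun x : ℤ => x ≠ 0) _ h, if_neg h, zero_add]

theorem rest_sub (N j : ℕ) (ζ : ℕ → ℤ) (a : ℤ) :
    rest N j (ζ - Pi.single j a) = rest N j ζ := by
  unfold rest
  congr 1
  apply Multiset.map_congr rfl
  intro x hx
  have : x ≠ j := Finset.ne_of_mem_erase (show x ∈ (range N).erase j from hx)
  rw [Pi.sub_apply, Pi.single_eq_of_ne this, sub_zero]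

theorem cn_ne_zero_vals {N : ℕ} {s : List ℤ} {ζ : ℕ → ℤ} (h : cn N s ζ ≠ 0) :
    (vals N ζ).card ≤ s.length ∧ ((vals N ζ).card = s.length → vals N ζ = (s : Multiset ℤ)) := by
  induction s generalizing ζ with
  | nil =>
    simp only [cn] at h
    split_ifs at h with h'
    · have : vals N ζ = 0 := by
        unfold vals
        rw [Multiset.filter_eq_nil]
        intro a ha
        rw [Multiset.mem_map] at ha
        obtain ⟨i, hi, rfl⟩ := ha
        have : i < N := by simpa using hi
        rw [h' i this]
        simp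
      rw [this]
      simp
    · exact absurd rfl h
  | cons a s ih =>
    simp only [cn] at h
    obtain ⟨j, hj, hne⟩ := Finset.exists_ne_zero_of_sum_ne_zero h
    rw [mem_range] at hj
    obtain ⟨h1, h2⟩ := ih hne
    rw [vals_eq hj, rest_sub] at h1 h2
    rw [vals_eq hj]
    rw [Pi.sub_apply, Pi.single_eq_same] at h1 h2
    simp only [List.length_cons]
    constructor
    · rw [Multiset.card_add]
      rw [Multiset.card_add] at h1
      have : (if ζ j ≠ 0 then ({ζ j} : Multiset ℤ) else 0).card ≤ 1 := by
        split_ifs <;> simp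
      omega
    · intro h3
      rw [Multiset.card_add] at h3 h1 h2
      by_cases hz : ζ j ≠ 0
      · rw [if_pos hz] at h3 ⊢
        rw [Multiset.card_singleton] at h3
        by_cases hz2 : ζ j - a ≠ 0
        · rw [if_pos hz2, Multiset.card_singleton] at h1
          omega
        · rw [if_neg hz2] at h2
          simp only [Multiset.card_zero, zero_add] at h2
          have h4 := h2 (by omega)
          rw [h4]
          push Not at hz2
          have : ζ j = a := by linarith
          rw [this, Multiset.singleton_add]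
          rfl
      · rw [if_neg hz] at h3
        simp only [Multiset.card_zero, zero_add] at h3
        omega

/-- the exponent attached to a list -/
def zt : List ℤ → (ℕ → ℤ)
  | [] => 0
  | a :: s => zt s + Pi.single s.length a

theorem zt_support (s : List ℤ) (i : ℕ) (hi : s.length ≤ i) : zt s i = 0 := by
  induction s with
  | nil => rfl
  | cons a s ih =>
    simp only [List.length_cons] at hi
    simp only [zt, Pi.add_apply]
    rw [ih (by omega), Pi.single_eq_of_ne (by omega), zero_add]

theorem nrm_zt (s : List ℤ) (N : ℕ) (hN : s.length ≤ N) : nrm N (zt s) = wl s := by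
  induction s with
  | nil => simp [nrm, zt, wl]
  | cons a s ih =>
    simp only [List.length_cons] at hN
    have h1 := nrm_sub_single_outside (N := N) (ζ := zt s) (j := s.length) (by omega)
      (zt_support s _ le_rfl) (-a)
    rw [ih (by omega)] at h1
    simp only [zt, wl]
    rw [← Int.natAbs_neg a, add_comm (-a).natAbs, ← h1]
    congr 1
    rw [Pi.single_neg, sub_neg_eq_add]

theorem vals_zt (s : List ℤ) (hs : ∀ a ∈ s, a ≠ 0) (N : ℕ) (hN : s.length ≤ N) :
    vals N (zt s) = (s : Multiset ℤ) := by
  induction s with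
  | nil =>
    change vals N (zt []) = 0
    unfold vals
    rw [Multiset.filter_eq_nil]
    intro a ha
    rw [Multiset.mem_map] at ha
    obtain ⟨i, _, rfl⟩ := ha
    simp [zt]
  | cons a s ih =>
    simp only [List.length_cons] at hN
    have ha : a ≠ 0 := hs a (by simp)
    have hj : s.length < N := by omega
    have h1 := ih (fun b hb => hs b (by simp [hb])) (by omega)
    rw [vals_eq hj, zt_support s _ le_rfl] at h1
    simp only [ne_eq, not_true_eq_false, if_false, zero_add] at h1
    rw [vals_eq hj]
    have h2 : zt (a :: s) s.length = a := by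
      simp [zt, zt_support s _ le_rfl]
    have h3 : rest N s.length (zt (a :: s)) = rest N s.length (zt s) := by
      have := rest_sub N s.length (zt (a :: s)) a
      rw [← this]
      congr 1
      simp [zt]
    rw [h2, if_pos ha, h3, h1]
    rfl

theorem cn_zt_ne_zero (s : List ℤ) (N : ℕ) (hN : s.length ≤ N) : cn N s (zt s) ≠ 0 := by
  induction s with
  | nil => simp [cn, zt]
  | cons a s ih =>
    simp only [List.length_cons] at hN
    simp only [cn]
    intro h
    rw [Finset.sum_eq_zero_iff] at h
    have h1 := h s.length (mem_range.2 (by omega))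
    apply ih (by omega)
    rw [← h1]
    congr 1
    simp [zt]

end Pool.Agent.R310.JL
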