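import Pool.Agent.R310.JL.Inter

/-!
Coefficients of `Phi N G` in terms of the monomials of `G`.
-/

namespace Pool.Agent.R310.JL

open Finset MvPolynomial

/-- letters different from `0` of a monomial -/
noncomputable def ltr (κ : ℤ →₀ ℕ) : List ℤ := (Finsupp.toMultiset (κ.erase 0)).toList

/-- weight of a monomial -/
noncomputable def wt (κ : ℤ →₀ ℕ) : ℕ := ((Finsupp.toMultiset κ).map Int.natAbs).sum

theorem ltr_ne_zero (κ : ℤ →₀ ℕ) : ∀ a ∈ ltr κ, a ≠ 0 := by
  intro a ha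
  unfold ltr at ha
  rw [Multiset.mem_toList, Finsupp.mem_toMultiset] at ha
  intro h
  subst h
  simp at ha

theorem ltr_coe (κ : ℤ →₀ ℕ) : ((ltr κ : List ℤ) : Multiset ℤ) = Finsupp.toMultiset (κ.erase 0) := by
  unfold ltr
  rw [Multiset.coe_toList]

theorem wl_coe (s : List ℤ) : wl s = ((s : Multiset ℤ).map Int.natAbs).sum := by
  induction s with
  | nil => rfl
  | cons a s ih =>
    simp only [wl, ih]
    simp

theorem toMultiset_split (κ : ℤ →₀ ℕ) :
    Finsupp.toMultiset κ = Finsupp.toMultiset (κ.erase 0) + κ 0 • ({0} : Multiset ℤ) := by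
  conv_lhs => rw [← Finsupp.erase_add_single 0 κ]
  rw [map_add, Finsupp.toMultiset_single]

theorem wl_ltr (κ : ℤ →₀ ℕ) : wl (ltr κ) = wt κ := by
  unfold wt
  rw [wl_coe, ltr_coe, toMultiset_split κ, Multiset.map_add, Multiset.sum_add,
    Multiset.map_nsmul, Multiset.sum_nsmul]
  simp

theorem wt_add (κ κ' : ℤ →₀ ℕ) : wt (κ + κ') = wt κ + wt κ' := by
  unfold wt
  rw [map_add, Multiset.map_add, Multiset.sum_add]

theorem wt_single (a : ℤ) (n : ℕ) : wt (Finsupp.single a n) = n * a.natAbs := by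
  unfold wt
  rw [Finsupp.toMultiset_single, Multiset.map_nsmul, Multiset.sum_nsmul]
  simp

theorem wt_erase (κ : ℤ →₀ ℕ) : wt (κ.erase 0) = wt κ := by
  rw [← wl_ltr, ← wl_ltr]
  unfold ltr
  congr 2
  congr 1
  ext a
  by_cases h : a = 0 <;> simp [h]

theorem Phi_monomial_one (N : ℕ) (κ : ℤ →₀ ℕ) :
    Phi N (monomial κ 1) = ((Finsupp.toMultiset κ).map (psm N)).prod := by
  induction κ using Finsupp.induction_linear with
  | zero => simp
  | add f g hf hg =>
    rw [map_add, Multiset.map_add, Multiset.prod_add, ← hf, ← hg, ← map_mul, monomial_mul, one_mul]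
  | single a n =>
    rw [Finsupp.toMultiset_single, Multiset.map_nsmul, Multiset.prod_nsmul]
    have : monomial (Finsupp.single a n) (1 : ℂ) = X a ^ n := by
      rw [X_pow_eq_monomial]
    rw [this, map_pow, Phi_X]
    simp

theorem Phi_monomial (N : ℕ) (κ : ℤ →₀ ℕ) (c : ℂ) :
    Phi N (monomial κ c) = (c * (N : ℂ) ^ κ 0) • ((ltr κ).map (psm N)).prod := by
  have h1 : monomial κ c = c • monomial κ (1 : ℂ) := by
    rw [smul_monomial, smul_eq_mul, mul_one]
  have h2 : ((ltr κ).map (psm N)).prod = ((Finsupp.toMultiset (κ.erase 0)).map (psm N)).prod := by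
    rw [← ltr_coe]
    simp
  rw [h1, map_smul, Phi_monomial_one, toMultiset_split κ, Multiset.map_add, Multiset.prod_add,
    Multiset.map_nsmul, Multiset.prod_nsmul, Multiset.map_singleton, Multiset.prod_singleton,
    psm_zero, ← h2, mul_smul]
  congr 1
  have : ((N : LP N)) ^ κ 0 = ((N : ℂ) ^ κ 0) • (1 : LP N) := by
    rw [← Algebra.algebraMap_eq_smul_one, map_pow, map_natCast]
  rw [this, mul_smul_comm, mul_one]

/-- the coefficient of `x ^ ζ` in `Phi N G` -/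
theorem coeff_Phi (N : ℕ) (G : MvPolynomial ℤ ℂ) (ζ : ℕ → ℤ) :
    (Phi N G).coeff (res N ζ)
      = ∑ κ ∈ G.support, G.coeff κ * (N : ℂ) ^ κ 0 * (cn N (ltr κ) ζ : ℂ) := by
  conv_lhs => rw [G.as_sum]
  rw [map_sum, AddMonoidAlgebra.coeff_sum, Finsupp.finsetSum_apply]
  refine Finset.sum_congr rfl fun κ _ => ?_
  rw [Phi_monomial, AddMonoidAlgebra.coeff_smul, Finsupp.smul_apply, coeff_prod_psm, smul_eq_mul]

/-- choice of an exponent that detects one of the monomials of a finite set -/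
theorem exists_detect (T : Finset (ℤ →₀ ℕ)) (hT : T.Nonempty) :
    ∃ κ ∈ T, ∃ ζ : ℕ → ℤ, ∃ L : ℕ, (∀ i, L ≤ i → ζ i = 0) ∧ nrm L ζ = wt κ ∧
      (∀ N, L ≤ N → cn N (ltr κ) ζ = cn L (ltr κ) ζ) ∧ cn L (ltr κ) ζ ≠ 0 ∧
      ∀ N, L ≤ N → ∀ κ' ∈ T, κ'.erase 0 ≠ κ.erase 0 → cn N (ltr κ') ζ = 0 := by
  obtain ⟨κ, hκ, hmax⟩ := Finset.exists_max_image T (fun κ => (ltr κ).length) hT
  refine ⟨κ, hκ, zt (ltr κ), (ltr κ).length, zt_support _, ?_, ?_, ?_, ?_⟩
  · rw [nrm_zt _ _ le_rfl, wl_ltr]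
  · intro N hN
    apply cn_stable hN (ltr_ne_zero κ) (zt_support _)
    rw [nrm_zt _ _ le_rfl]
  · exact cn_zt_ne_zero _ _ le_rfl
  · intro N hN κ' hκ' hne
    by_contra h
    obtain ⟨h1, h2⟩ := cn_ne_zero_vals h
    rw [vals_zt _ (ltr_ne_zero κ) _ hN] at h1 h2
    rw [Multiset.coe_card] at h1 h2
    have h3 := h2 (le_antisymm h1 (hmax κ' hκ'))
    rw [ltr_coe, ltr_coe] at h3
    apply hne
    ext a
    rw [← Finsupp.count_toMultiset, ← Finsupp.count_toMultiset, h3]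

end Pool.Agent.R310.JL
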