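import Pool.Agent.R310.JL.Count

/-!
The map from polynomials in the power sums to Laurent polynomials, and the
intertwining of the Calogero-Moser-Sutherland operator.
-/

namespace Pool.Agent.R310.JL

open Finset MvPolynomial

/-- `X_a ↦ x_1 ^ a + ... + x_N ^ a`, also for `a = 0`. -/
noncomputable def Phi (N : ℕ) : MvPolynomial ℤ ℂ →ₐ[ℂ] LP N := aeval (psm N)

theorem Phi_X (N : ℕ) (a : ℤ) : Phi N (X a) = psm N a := by simp [Phi]

theorem pderiv_comm' (a b : ℤ) (g : MvPolynomial ℤ ℂ) :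
    pderiv a (pderiv b g) = pderiv b (pderiv a g) := by
  by_cases hab : a = b
  · rw [hab]
  · ext m
    rw [coeff_pderiv, coeff_pderiv, coeff_pderiv, coeff_pderiv]
    rw [Finsupp.add_apply, Finsupp.add_apply, Finsupp.single_eq_of_ne (by exact fun h => hab h.symm),
      Finsupp.single_eq_of_ne hab, add_right_comm]
    push_cast
    ring

theorem theta_one {N : ℕ} (j : Fin N) : theta j (1 : LP N) = 0 := by
  rw [AddMonoidAlgebra.one_def, theta_single]
  simp

theorem theta_Phi_eventually (g : MvPolynomial ℤ ℂ) :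
    ∀ᶠ S : Finset ℤ in Filter.atTop, ∀ (N : ℕ) (j : Fin N),
      theta j (Phi N g) = ∑ a ∈ S, (a : ℂ) • (xpow j a * Phi N (pderiv a g)) := by
  induction g using MvPolynomial.induction_on with
  | C c =>
    refine Filter.Eventually.of_forall fun S N j => ?_
    have h1 : Phi N (C c) = c • (1 : LP N) := by
      rw [← MvPolynomial.algebraMap_eq, AlgHom.commutes, Algebra.algebraMap_eq_smul_one]
    rw [h1, theta_smul, theta_one, smul_zero]
    symm
    apply Finset.sum_eq_zero
    intro a _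
    rw [pderiv_C]
    simp
  | add p q hp hq =>
    filter_upwards [hp, hq] with S h1 h2 N j
    rw [map_add, theta_add, h1, h2, ← Finset.sum_add_distrib]
    refine Finset.sum_congr rfl fun a _ => ?_
    rw [map_add, map_add, mul_add, smul_add]
  | mul_X p b hp =>
    filter_upwards [hp, Filter.eventually_ge_atTop ({b} : Finset ℤ)] with S h1 hb N j
    have hb' : b ∈ S := by
      have : ({b} : Finset ℤ) ⊆ S := hb
      exact this (by simp)
    rw [map_mul, theta_mul, h1, Phi_X, theta_psm]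
    have h3 : ∀ a ∈ S, (a : ℂ) • (xpow j a * Phi N (pderiv a (p * X b)))
        = ((a : ℂ) • (xpow j a * Phi N (pderiv a p))) * psm N b
          + (if a = b then (a : ℂ) • (xpow j a * Phi N p) else 0) := by
      intro a _
      rw [pderiv_mul, pderiv_X, map_add, map_mul, map_mul, Phi_X, mul_add, smul_add]
      congr 1
      · rw [smul_mul_assoc, mul_assoc]
      · by_cases h : a = b
        · subst h
          simp
        · rw [if_neg h, Pi.single_eq_of_ne (fun h' => h h'.symm)]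
          simp
    rw [Finset.sum_congr rfl h3, Finset.sum_add_distrib, Finset.sum_ite_eq' S b, if_pos hb',
      Finset.sum_mul]
    congr 1
    rw [mul_smul_comm, mul_comm]

theorem theta_Phi {g : MvPolynomial ℤ ℂ} {S : Finset ℤ} (hS : ∀ b ∉ S, pderiv b g = 0)
    (N : ℕ) (j : Fin N) :
    theta j (Phi N g) = ∑ a ∈ S, (a : ℂ) • (xpow j a * Phi N (pderiv a g)) := by
  obtain ⟨S₀, hS₀⟩ := Filter.eventually_atTop.1 (theta_Phi_eventually g)
  rw [hS₀ (S₀ ∪ S) (Finset.subset_union_left) N j]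
  symm
  apply Finset.sum_subset Finset.subset_union_right
  intro b _ hb
  rw [hS b hb]
  simp

/-- the divided difference `(x_i + x_j) (x_i ^ a - x_j ^ a) / (x_i - x_j)` -/
noncomputable def QQ {N : ℕ} (a : ℤ) (i j : Fin N) : LP N :=
  (a.sign : ℂ) • ∑ l ∈ range a.natAbs,
    (xpow i (a.sign * l) * xpow j (a - a.sign * l) + xpow j (a.sign * l) * xpow i (a - a.sign * l))

theorem QQ_spec {N : ℕ} (a : ℤ) (i j : Fin N) :
    (xpow i 1 - xpow j 1) * QQ a i j = (xpow i 1 + xpow j 1) * (xpow i a - xpow j a) := by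
  rcases lt_trichotomy a 0 with ha | ha | ha
  · obtain ⟨n, rfl⟩ : ∃ n : ℕ, a = -(n : ℤ) := ⟨a.natAbs, by omega⟩
    have hn : 0 < n := by omega
    have hs : (-(n : ℤ)).sign = -1 := Int.sign_eq_neg_one_of_neg ha
    unfold QQ
    rw [hs]
    simp only [Int.natAbs_neg, Int.natAbs_natCast, Int.cast_neg, Int.cast_one]
    have h1 : ∀ l ∈ range n, (xpow i 1 - xpow j 1) *
        (xpow i (-1 * (l : ℤ)) * xpow j (-(n : ℤ) - -1 * l)
          + xpow j (-1 * (l : ℤ)) * xpow i (-(n : ℤ) - -1 * l))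
        = (xpow i (1 - (l : ℤ)) * xpow j (-(n : ℤ) + l)
            - xpow j (1 - (l : ℤ)) * xpow i (-(n : ℤ) + l))
          - (xpow i (1 - ((l + 1 : ℕ) : ℤ)) * xpow j (-(n : ℤ) + ((l + 1 : ℕ) : ℤ))
            - xpow j (1 - ((l + 1 : ℕ) : ℤ)) * xpow i (-(n : ℤ) + ((l + 1 : ℕ) : ℤ))) := by
      intro l _
      have e1 : xpow i (1 - (l : ℤ)) = xpow i 1 * xpow i (-1 * (l : ℤ)) := by
        rw [xpow_mul]; congr 1; ring
      have e2 : xpow j (1 - (l : ℤ)) = xpow j 1 * xpow j (-1 * (l : ℤ)) := by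
        rw [xpow_mul]; congr 1; ring
      have e3 : xpow i (-(n : ℤ) + ((l + 1 : ℕ) : ℤ)) = xpow i 1 * xpow i (-(n : ℤ) + l) := by
        rw [xpow_mul]; congr 1; push_cast; ring
      have e4 : xpow j (-(n : ℤ) + ((l + 1 : ℕ) : ℤ)) = xpow j 1 * xpow j (-(n : ℤ) + l) := by
        rw [xpow_mul]; congr 1; push_cast; ring
      have e5 : (1 - ((l + 1 : ℕ) : ℤ)) = -1 * (l : ℤ) := by push_cast; ring
      have e6 : (-(n : ℤ) - -1 * l) = -(n : ℤ) + l := by ring
      rw [e1, e2, e3, e4, e5, e6]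
      ring
    rw [mul_smul_comm, Finset.mul_sum, Finset.sum_congr rfl h1, Finset.sum_range_sub']
    have e7 : (1 : ℤ) - ((0 : ℕ) : ℤ) = 1 := by simp
    have e8 : -(n : ℤ) + ((0 : ℕ) : ℤ) = -n := by simp
    have e9 : -(n : ℤ) + (n : ℤ) = 0 := by ring
    rw [e7, e8, e9, xpow_zero, xpow_zero]
    have e10 : xpow i (1 - (n : ℤ)) = xpow i 1 * xpow i (-(n : ℤ)) := by
      rw [xpow_mul]; congr 1
    have e11 : xpow j (1 - (n : ℤ)) = xpow j 1 * xpow j (-(n : ℤ)) := by
      rw [xpow_mul]; congr 1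
    rw [e10, e11, neg_smul, one_smul]
    ring
  · subst ha
    simp [QQ, xpow_zero]
  · obtain ⟨n, rfl⟩ : ∃ n : ℕ, a = (n : ℤ) := ⟨a.natAbs, by omega⟩
    have hs : (n : ℤ).sign = 1 := Int.sign_eq_one_of_pos ha
    unfold QQ
    rw [hs]
    simp only [Int.natAbs_natCast, Int.cast_one, one_smul]
    have h1 : ∀ l ∈ range n, (xpow i 1 - xpow j 1) *
        (xpow i (1 * (l : ℤ)) * xpow j ((n : ℤ) - 1 * l)
          + xpow j (1 * (l : ℤ)) * xpow i ((n : ℤ) - 1 * l))
        = (xpow i ((l + 1 : ℕ) : ℤ) * xpow j ((n : ℤ) + 1 - ((l + 1 : ℕ) : ℤ))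
            - xpow j ((l + 1 : ℕ) : ℤ) * xpow i ((n : ℤ) + 1 - ((l + 1 : ℕ) : ℤ)))
          - (xpow i (l : ℤ) * xpow j ((n : ℤ) + 1 - (l : ℤ))
            - xpow j (l : ℤ) * xpow i ((n : ℤ) + 1 - (l : ℤ))) := by
      intro l _
      have e1 : xpow i ((l + 1 : ℕ) : ℤ) = xpow i 1 * xpow i (l : ℤ) := by
        rw [xpow_mul]; congr 1; push_cast; ring
      have e2 : xpow j ((l + 1 : ℕ) : ℤ) = xpow j 1 * xpow j (l : ℤ) := by
        rw [xpow_mul]; congr 1; push_cast; ring
      have e3 : xpow i ((n : ℤ) + 1 - (l : ℤ)) = xpow i 1 * xpow i ((n : ℤ) - l) := by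
        rw [xpow_mul]; congr 1; ring
      have e4 : xpow j ((n : ℤ) + 1 - (l : ℤ)) = xpow j 1 * xpow j ((n : ℤ) - l) := by
        rw [xpow_mul]; congr 1; ring
      have e5 : ((n : ℤ) + 1 - ((l + 1 : ℕ) : ℤ)) = (n : ℤ) - l := by push_cast; ring
      rw [e1, e2, e3, e4, e5, one_mul]
      ring
    rw [Finset.mul_sum, Finset.sum_congr rfl h1,
      Finset.sum_range_sub (fun l : ℕ => xpow i (l : ℤ) * xpow j ((n : ℤ) + 1 - (l : ℤ))
            - xpow j (l : ℤ) * xpow i ((n : ℤ) + 1 - (l : ℤ)))]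
    have e7 : (n : ℤ) + 1 - (n : ℤ) = 1 := by ring
    have e8 : (n : ℤ) + 1 - ((0 : ℕ) : ℤ) = 1 + n := by push_cast; ring
    rw [e7, e8, Nat.cast_zero, xpow_zero, xpow_zero, ← xpow_mul, ← xpow_mul]
    ring

theorem pairSum_symm {N : ℕ} {A : Type*} [AddCommGroup A] (F : Fin N → Fin N → A) :
    pairSum N (fun i j => F i j + F j i) = (∑ i, ∑ j, F i j) - ∑ i, F i i := by
  unfold pairSum
  have h1 : ∀ i j : Fin N, (if i < j then F i j + F j i else 0)
      = (if i < j then F i j else 0) + (if i < j then F j i else 0) := by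
    intro i j
    split_ifs <;> simp
  simp_rw [h1, Finset.sum_add_distrib]
  rw [Finset.sum_comm (f := fun i j => if i < j then F j i else 0)]
  rw [← Finset.sum_add_distrib, ← Finset.sum_sub_distrib]
  refine Finset.sum_congr rfl fun i _ => ?_
  rw [← Finset.sum_add_distrib]
  have h2 : ∀ j : Fin N, ((if i < j then F i j else 0) + (if j < i then F i j else 0))
      = F i j - (if i = j then F i j else 0) := by
    intro j
    rcases lt_trichotomy i j with h | h | h
    · rw [if_pos h, if_neg (by exact not_lt.2 h.le), if_neg (ne_of_lt h)]; simp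
    · subst h; simp
    · rw [if_neg (by exact not_lt.2 h.le), if_pos h, if_neg (ne_of_gt h)]; simp
  simp_rw [h2]
  rw [Finset.sum_sub_distrib, Finset.sum_ite_eq]
  simp

/-- the polynomial with image `∑_{i<j} QQ a i j` up to the sign of `a` -/
noncomputable def WW (a : ℤ) : MvPolynomial ℤ ℂ :=
  ∑ l ∈ range a.natAbs, (X (a.sign * l) * X (a - a.sign * l) - X a)

theorem pairSum_QQ (N : ℕ) (a : ℤ) :
    pairSum N (fun i j => QQ a i j) = (a.sign : ℂ) • Phi N (WW a) := by
  have h0 : ∀ (c : ℂ) (F : ℕ → Fin N → Fin N → LP N) (n : ℕ),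
      pairSum N (fun i j => c • ∑ l ∈ range n, F l i j)
        = c • ∑ l ∈ range n, pairSum N (F l) := by
    intro c F n
    unfold pairSum
    have h1 : ∀ i j : Fin N, (if i < j then c • ∑ l ∈ range n, F l i j else 0)
        = ∑ l ∈ range n, c • (if i < j then F l i j else 0) := by
      intro i j
      split_ifs
      · rw [Finset.smul_sum]
      · simp
    simp_rw [h1]
    rw [Finset.sum_congr rfl fun i _ => Finset.sum_comm, Finset.sum_comm, Finset.smul_sum]
    refine Finset.sum_congr rfl fun l _ => ?_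
    rw [Finset.smul_sum]
    refine Finset.sum_congr rfl fun i _ => ?_
    rw [Finset.smul_sum]
  unfold QQ WW
  rw [h0, map_sum]
  congr 1
  refine Finset.sum_congr rfl fun l _ => ?_
  rw [pairSum_symm, map_sub, map_mul, Phi_X, Phi_X, Phi_X]
  congr 1
  · unfold psm
    rw [Finset.sum_mul_sum]
  · unfold psm
    refine Finset.sum_congr rfl fun i _ => ?_
    rw [xpow_mul]
    congr 1
    ring

/-- the operator on polynomials in the power sums -/
noncomputable def LL (k : ℂ) (S : Finset ℤ) (g : MvPolynomial ℤ ℂ) : MvPolynomial ℤ ℂ :=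
  ∑ a ∈ S, ∑ b ∈ S, ((a : ℂ) * b) • (X (a + b) * pderiv b (pderiv a g))
    + ∑ a ∈ S, ((a : ℂ) ^ 2) • (X a * pderiv a g)
    - k • ∑ a ∈ S, (a.natAbs : ℂ) • (WW a * pderiv a g)

theorem xpow_sub_ne_zero {N : ℕ} {i j : Fin N} (h : i ≠ j) : xpow i 1 - xpow j 1 ≠ (0 : LP N) := by
  intro h0
  have h1 := congrArg (fun f : LP N => f.coeff (Pi.single i 1)) h0
  simp only [xpow, AddMonoidAlgebra.coeff_sub, AddMonoidAlgebra.coeff_single,
    Finsupp.sub_apply, Finsupp.single_apply, AddMonoidAlgebra.coeff_zero, Finsupp.coe_zero,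
    Pi.zero_apply] at h1
  rw [if_pos trivial, if_neg] at h1
  · norm_num at h1
  · intro h2
    have := congrFun h2 i
    rw [Pi.single_eq_same, Pi.single_eq_of_ne h] at this
    norm_num at this

theorem intertwine {k : ℂ} {g : MvPolynomial ℤ ℂ} {S : Finset ℤ} (hS : ∀ b ∉ S, pderiv b g = 0)
    {N : ℕ} {h : Fin N → Fin N → LP N}
    (hh : ∀ i j, i < j → (xpow i 1 - xpow j 1) * h i j
      = (xpow i 1 + xpow j 1) * (theta i (Phi N g) - theta j (Phi N g))) :
    ∑ j, theta j (theta j (Phi N g)) - k • pairSum N h = Phi N (LL k S g) := by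
  have h1 : ∀ i j, i < j → h i j = ∑ a ∈ S, (a : ℂ) • (QQ a i j * Phi N (pderiv a g)) := by
    intro i j hij
    apply mul_left_cancel₀ (xpow_sub_ne_zero (ne_of_lt hij))
    rw [hh i j hij, theta_Phi hS, theta_Phi hS, ← Finset.sum_sub_distrib, Finset.mul_sum,
      Finset.mul_sum]
    refine Finset.sum_congr rfl fun a _ => ?_
    rw [← smul_sub, ← sub_mul, mul_smul_comm, mul_smul_comm, ← mul_assoc, ← mul_assoc, QQ_spec]
  have h2 : pairSum N h = Phi N (∑ a ∈ S, (a.natAbs : ℂ) • (WW a * pderiv a g)) := by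
    have h3 : pairSum N h
        = ∑ a ∈ S, (a : ℂ) • ((pairSum N fun i j => QQ a i j) * Phi N (pderiv a g)) := by
      unfold pairSum
      have h4 : ∀ i j : Fin N, (if i < j then h i j else 0)
          = ∑ a ∈ S, (a : ℂ) • ((if i < j then QQ a i j else 0) * Phi N (pderiv a g)) := by
        intro i j
        split_ifs with hij
        · exact h1 i j hij
        · simp
      simp_rw [h4]
      rw [Finset.sum_congr rfl fun i _ => Finset.sum_comm, Finset.sum_comm]
      refine Finset.sum_congr rfl fun a _ => ?_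
      rw [Finset.sum_mul, Finset.smul_sum]
      refine Finset.sum_congr rfl fun i _ => ?_
      rw [Finset.sum_mul, Finset.smul_sum]
    rw [h3, map_sum]
    refine Finset.sum_congr rfl fun a _ => ?_
    rw [pairSum_QQ, map_smul, map_mul, smul_mul_assoc, smul_smul]
    congr 1
    have h9 : (a : ℤ) * a.sign = a.natAbs := by
      rw [mul_comm, Int.sign_mul_self_eq_natAbs]
    rw [← Int.cast_mul, h9, Int.cast_natCast]
  have h5 : ∑ j, theta j (theta j (Phi N g))
      = Phi N (∑ a ∈ S, ∑ b ∈ S, ((a : ℂ) * b) • (X (a + b) * pderiv b (pderiv a g))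
        + ∑ a ∈ S, ((a : ℂ) ^ 2) • (X a * pderiv a g)) := by
    have h6 : ∀ j : Fin N, theta j (theta j (Phi N g))
        = ∑ a ∈ S, ((∑ b ∈ S, ((a : ℂ) * b) • (xpow j (a + b) * Phi N (pderiv b (pderiv a g))))
          + ((a : ℂ) ^ 2) • (xpow j a * Phi N (pderiv a g))) := by
      intro j
      rw [theta_Phi hS, theta_sum]
      refine Finset.sum_congr rfl fun a _ => ?_
      have hSa : ∀ b ∉ S, pderiv b (pderiv a g) = 0 := by
        intro b hb
        rw [pderiv_comm', hS b hb, map_zero]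
      rw [theta_smul, theta_mul, theta_xpow, if_pos rfl, theta_Phi hSa, smul_add, add_comm]
      congr 1
      · rw [Finset.mul_sum, Finset.smul_sum]
        refine Finset.sum_congr rfl fun b _ => ?_
        rw [mul_smul_comm, smul_smul, ← mul_assoc, xpow_mul]
      · rw [smul_mul_assoc, smul_smul, sq]
    simp_rw [h6]
    rw [Finset.sum_comm, map_add, map_sum, map_sum, ← Finset.sum_add_distrib]
    refine Finset.sum_congr rfl fun a _ => ?_
    rw [Finset.sum_add_distrib]
    congr 1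
    · rw [Finset.sum_comm, map_sum]
      refine Finset.sum_congr rfl fun b _ => ?_
      rw [map_smul, map_mul, Phi_X, psm, Finset.sum_mul, Finset.smul_sum]
    · rw [map_smul, map_mul, Phi_X, psm, Finset.sum_mul, Finset.smul_sum]
  rw [h5, h2, ← map_smul, ← map_sub]
  rfl

end Pool.Agent.R310.JL
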