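import Pool.Agent.R310.JL.Weight

/-!
Jack polynomials as triangular eigenfunctions of the Calogero-Moser-Sutherland operator.
-/

namespace Pool.Agent.R310.JL

open Finset

theorem abel_ineq {a b : ℕ → ℤ} {n : ℕ} (hb : ∀ i, i + 1 ≤ n → b (i + 1) ≤ b i)
    (hD : ∀ t, t ≤ n + 1 → 0 ≤ ∑ i ∈ range t, (a i - b i)) :
    b n * ∑ i ∈ range (n + 1), (a i - b i) ≤ ∑ i ∈ range (n + 1), b i * (a i - b i) := by
  induction n with
  | zero => simp
  | succ n ih =>
    have h1 := ih (fun i hi => hb i (by omega)) (fun t ht => hD t (by omega))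
    rw [Finset.sum_range_succ, Finset.sum_range_succ (fun i => b i * (a i - b i))]
    have h2 := hb n (by omega)
    have h3 := hD (n + 1) (by omega)
    nlinarith [mul_nonneg (sub_nonneg.2 h2) h3]

theorem sq_ineq {N : ℕ} {χ η : Fin N → ℤ} (hη : ∀ i j : Fin N, i ≤ j → η j ≤ η i)
    (htot : ∑ i, η i = ∑ i, χ i)
    (hdom : ∀ S : Finset (Fin N), ∑ i ∈ S, η i ≤ ∑ i : Fin N, if (i : ℕ) < S.card then χ i else 0) :
    ∑ i, (χ i - η i) ^ 2 ≤ ∑ i, χ i ^ 2 - ∑ i, η i ^ 2 := by
  rcases N with _ | n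
  · simp
  have key : 0 ≤ ∑ i, η i * (χ i - η i) := by
    set a : ℕ → ℤ := fun i => if h : i < n + 1 then χ ⟨i, h⟩ else 0 with ha
    set b : ℕ → ℤ := fun i => if h : i < n + 1 then η ⟨i, h⟩ else 0 with hb
    have ha' : ∀ i : Fin (n + 1), a i = χ i := fun i => by simp only [ha]; rw [dif_pos i.2]
    have hb' : ∀ i : Fin (n + 1), b i = η i := fun i => by simp only [hb]; rw [dif_pos i.2]
    have h1 := abel_ineq (a := a) (b := b) (n := n) ?_ ?_
    · have h2 : ∑ i ∈ range (n + 1), (a i - b i) = 0 := by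
        rw [Finset.sum_range]
        simp_rw [ha', hb']
        rw [Finset.sum_sub_distrib, htot, sub_self]
      rw [h2, mul_zero, Finset.sum_range] at h1
      simp_rw [ha', hb'] at h1
      exact h1
    · intro i hi
      simp only [hb]
      rw [dif_pos (show i < n + 1 by omega), dif_pos (show i + 1 < n + 1 by omega)]
      exact hη _ _ (by simp)
    · intro t ht
      rw [Finset.sum_sub_distrib, sub_nonneg]
      have h3 := hdom (Finset.univ.filter fun i : Fin (n + 1) => (i : ℕ) < t)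
      have h4 : (Finset.univ.filter fun i : Fin (n + 1) => (i : ℕ) < t).card = t := by
        rw [Fin.card_filter_val_lt]
        simpa using ht
      rw [h4, Finset.sum_filter] at h3
      have h5 : ∀ (c : Fin (n + 1) → ℤ) (c' : ℕ → ℤ), (∀ i : Fin (n + 1), c' i = c i) →
          ∑ i ∈ range t, c' i = ∑ i : Fin (n + 1), if (i : ℕ) < t then c i else 0 := by
        intro c c' hc
        have h6 : ∀ i : Fin (n + 1), (if (i : ℕ) < t then c i else 0)
            = (fun j : ℕ => if j < t then c' j else 0) i := by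
          intro i
          simp only [hc i]
        simp_rw [h6]
        rw [← Finset.sum_range (fun j : ℕ => if j < t then c' j else 0), ← Finset.sum_filter]
        congr 1
        ext j
        simp only [Finset.mem_range, Finset.mem_filter]
        omega
      rw [h5 η b hb', h5 χ a ha']
      exact h3
  have h2 : ∑ i, χ i ^ 2 - ∑ i, η i ^ 2
      = ∑ i, (χ i - η i) ^ 2 + 2 * ∑ i, η i * (χ i - η i) := by
    rw [Finset.mul_sum, ← Finset.sum_add_distrib, ← Finset.sum_sub_distrib]
    refine Finset.sum_congr rfl fun i _ => ?_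
    ring
  linarith

theorem IsJack.sq_le {k : ℂ} {N : ℕ} {χ : Fin N → ℤ} {f : LP N} (hf : IsJack k χ f)
    {η : Fin N → ℤ} (hη : f.coeff η ≠ 0) :
    ∑ i, η i ^ 2 ≤ ∑ i, χ i ^ 2 ∧ (∑ i, η i ^ 2 = ∑ i, χ i ^ 2 → f.coeff η = 1) := by
  set σ : Equiv.Perm (Fin N) := Tuple.sort (fun i => -η i) with hσ
  have hmono : Monotone ((fun i => -η i) ∘ σ) := Tuple.monotone_sort _
  set η' : Fin N → ℤ := fun i => η (σ i) with hη'
  have h1 : f.coeff η' ≠ 0 := by rwa [hf.symm σ η]
  have h2 : ∀ i j : Fin N, i ≤ j → η' j ≤ η' i := by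
    intro i j hij
    have := hmono hij
    simp only [Function.comp_apply] at this
    simp only [hη']
    linarith
  have h3 := sq_ineq h2 (hf.total η' h1) (hf.dom η' h1)
  have h4 : ∑ i, η' i ^ 2 = ∑ i, η i ^ 2 := Equiv.sum_comp σ (fun i => η i ^ 2)
  rw [h4] at h3
  have h5 : 0 ≤ ∑ i, (χ i - η' i) ^ 2 := Finset.sum_nonneg fun i _ => sq_nonneg _
  refine ⟨by linarith, fun h6 => ?_⟩
  have h7 : ∑ i, (χ i - η' i) ^ 2 = 0 := by linarith
  rw [Finset.sum_eq_zero_iff_of_nonneg (fun i _ => sq_nonneg _)] at h7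
  have h8 : η' = χ := by
    funext i
    have := h7 i (Finset.mem_univ i)
    have := pow_eq_zero_iff (two_ne_zero) |>.1 this
    linarith
  rw [← hf.symm σ η]
  change f.coeff η' = 1
  rw [h8, hf.monic]

end Pool.Agent.R310.JL
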