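import Pool.Agent.R310.JL.Shift

/-!
Clearing denominators.
-/

namespace Pool.Agent.R310.JL

open Finset MvPolynomial

/-- the index type of the variables `p_i`, `i ≠ 0` -/
abbrev NZ : Type := {i : ℤ // i ≠ 0}

/-- common denominator -/
noncomputable def qden (F : MvPolynomial NZ (RatFunc ℂ)) : Polynomial ℂ :=
  ∏ m ∈ F.support, (F.coeff m).denom

/-- numerator over the common denominator -/
noncomputable def gnum (F : MvPolynomial NZ (RatFunc ℂ)) (m : NZ →₀ ℕ) : Polynomial ℂ :=
  (F.coeff m).num * ∏ m' ∈ F.support.erase m, (F.coeff m').denom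

/-- the index of a monomial -/
noncomputable def emb (m : NZ →₀ ℕ) : ℤ →₀ ℕ := Finsupp.mapDomain Subtype.val m

/-- the polynomial with cleared denominators, in which `X 0` stands for `p_0` -/
noncomputable def GG (F : MvPolynomial NZ (RatFunc ℂ)) : MvPolynomial ℤ ℂ :=
  ∑ m ∈ F.support, ∑ j ∈ range ((gnum F m).natDegree + 1),
    monomial (emb m + Finsupp.single 0 j) ((gnum F m).coeff j)

theorem emb_zero (m : NZ →₀ ℕ) : emb m 0 = 0 := by
  unfold emb
  apply Finsupp.mapDomain_of_notMem_range
  rintro ⟨⟨i, hi⟩, h⟩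
  exact hi h

theorem emb_injective : Function.Injective emb :=
  Finsupp.mapDomain_injective Subtype.val_injective

theorem qden_ne_zero (F : MvPolynomial NZ (RatFunc ℂ)) : qden F ≠ 0 :=
  Finset.prod_ne_zero_iff.2 fun _ _ => RatFunc.denom_ne_zero _

theorem qden_eq {F : MvPolynomial NZ (RatFunc ℂ)} {m : NZ →₀ ℕ} (hm : m ∈ F.support) :
    qden F = (F.coeff m).denom * ∏ m' ∈ F.support.erase m, (F.coeff m').denom :=
  (Finset.mul_prod_erase F.support (fun m => (F.coeff m).denom) hm).symm

theorem eval_eq {F : MvPolynomial NZ (RatFunc ℂ)} {m : NZ →₀ ℕ} (hm : m ∈ F.support) {z : ℂ}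
    (hz : (qden F).eval z ≠ 0) :
    RatFunc.eval (RingHom.id ℂ) z (F.coeff m) = (gnum F m).eval z / (qden F).eval z := by
  have h1 := qden_eq hm
  have h2 : (qden F).eval z = (F.coeff m).denom.eval z
      * (∏ m' ∈ F.support.erase m, (F.coeff m').denom).eval z := by
    rw [h1, Polynomial.eval_mul]
  rw [h2] at hz
  unfold RatFunc.eval gnum
  rw [h2, Polynomial.eval_mul, Polynomial.eval₂_id, Polynomial.eval₂_id,
    mul_div_mul_right _ _ (right_ne_zero_of_mul hz)]

theorem Phi_rename (N : ℕ) (p : MvPolynomial NZ ℂ) :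
    Phi N (rename Subtype.val p) = phi N p := by
  unfold Phi phi
  rw [aeval_rename]
  rfl

theorem Phi_emb (N : ℕ) (m : NZ →₀ ℕ) (j : ℕ) (c : ℂ) :
    Phi N (monomial (emb m + Finsupp.single 0 j) c)
      = (c * (N : ℂ) ^ j) • phi N (monomial m 1) := by
  have h1 : monomial (emb m + Finsupp.single 0 j) c
      = c • (rename Subtype.val (monomial m (1 : ℂ)) * (X 0) ^ j) := by
    rw [rename_monomial, X_pow_eq_monomial, monomial_mul, smul_monomial]
    simp [emb]
  rw [h1, map_smul, map_mul, map_pow, Phi_rename, Phi_X, psm_zero, mul_smul]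
  congr 1
  have : ((N : LP N)) ^ j = ((N : ℂ) ^ j) • (1 : LP N) := by
    rw [← Algebra.algebraMap_eq_smul_one, map_pow, map_natCast]
  rw [this, mul_smul_comm, mul_one]

theorem Phi_GG (F : MvPolynomial NZ (RatFunc ℂ)) (N : ℕ) (hz : (qden F).eval (N : ℂ) ≠ 0) :
    Phi N (GG F) = (qden F).eval (N : ℂ) • phi N (spec (N : ℂ) F) := by
  unfold GG spec
  rw [map_sum, map_sum, Finset.smul_sum]
  refine Finset.sum_congr rfl fun m hm => ?_
  rw [map_sum]
  have h1 : ∀ j ∈ range ((gnum F m).natDegree + 1),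
      Phi N (monomial (emb m + Finsupp.single 0 j) ((gnum F m).coeff j))
        = ((gnum F m).coeff j * (N : ℂ) ^ j) • phi N (monomial m 1) := fun j _ => Phi_emb N m j _
  rw [Finset.sum_congr rfl h1, ← Finset.sum_smul, ← Polynomial.eval_eq_sum_range]
  have h2 : monomial m (RatFunc.eval (RingHom.id ℂ) (N : ℂ) (F.coeff m))
      = RatFunc.eval (RingHom.id ℂ) (N : ℂ) (F.coeff m) • monomial m (1 : ℂ) := by
    rw [smul_monomial, smul_eq_mul, mul_one]
  rw [h2, map_smul, smul_smul, eval_eq hm hz, mul_div_cancel₀ _ hz]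

theorem coeff_GG {F : MvPolynomial NZ (RatFunc ℂ)} {m : NZ →₀ ℕ} (hm : m ∈ F.support) (j : ℕ) :
    (GG F).coeff (emb m + Finsupp.single 0 j) = (gnum F m).coeff j := by
  unfold GG
  rw [coeff_sum, Finset.sum_eq_single m]
  · rw [coeff_sum]
    by_cases hj : j ∈ range ((gnum F m).natDegree + 1)
    · rw [Finset.sum_eq_single j]
      · rw [coeff_monomial, if_pos rfl]
      · intro j' _ hne
        rw [coeff_monomial, if_neg]
        intro h
        have := congrArg (fun κ : ℤ →₀ ℕ => κ 0) h
        simp only [Finsupp.add_apply, Finsupp.single_eq_same] at this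
        omega
      · exact fun h => absurd hj h
    · rw [Finset.sum_eq_zero]
      · symm
        apply Polynomial.coeff_eq_zero_of_natDegree_lt
        simpa using hj
      · intro j' hj'
        rw [coeff_monomial, if_neg]
        intro h
        have := congrArg (fun κ : ℤ →₀ ℕ => κ 0) h
        simp only [Finsupp.add_apply, Finsupp.single_eq_same] at this
        rw [Finset.mem_range] at hj hj'
        omega
  · intro m' _ hne
    rw [coeff_sum]
    apply Finset.sum_eq_zero
    intro j' _
    rw [coeff_monomial, if_neg]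
    intro h
    have h0 := congrArg (fun κ : ℤ →₀ ℕ => κ 0) h
    simp only [Finsupp.add_apply, Finsupp.single_eq_same, emb_zero, zero_add] at h0
    rw [h0] at h
    exact hne (emb_injective (add_right_cancel h))
  · intro h
    exact absurd hm h

open Filter Topology in
/-- the main result -/
theorem main {k : ℂ} (hk : ∀ q : ℚ, k ≠ (q : ℂ)) (lam mu : List ℕ)
    (F : MvPolynomial NZ (RatFunc ℂ)) (hF : IsJackLaurent k lam mu F) (m : NZ →₀ ℕ) :
    ∃ c : ℂ, Tendsto (fun z : ℂ => RatFunc.eval (RingHom.id ℂ) z (F.coeff m))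
      (Bornology.cobounded ℂ) (𝓝 c) := by
  by_cases hm : m ∈ F.support
  swap
  · refine ⟨0, ?_⟩
    rw [notMem_support_iff.1 hm]
    simp
  have hfin : ∀ᶠ N : ℕ in atTop, (qden F).eval (N : ℂ) ≠ 0 := by
    have h1 : {N : ℕ | (qden F).eval (N : ℂ) = 0}.Finite := by
      apply Set.Finite.subset (Set.Finite.preimage (Nat.cast_injective (R := ℂ)).injOn
        (Polynomial.finite_setOfPred_isRoot (qden_ne_zero F)))
      intro N hN
      exact hN
    have h2 := h1.compl_mem_cofinite
    rw [Nat.cofinite_eq_atTop] at h2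
    exact h2
  have hcore : Low (qden F).natDegree (GG F) := by
    apply core hk lam mu
    filter_upwards [hfin, eventually_ge_atTop (lam.length + mu.length), eventually_ge_atTop 1]
      with N h1 h2 h3
    obtain ⟨n, rfl⟩ : ∃ n, N = n + 1 := ⟨N - 1, by omega⟩
    have h4 := hF.jack n (by
      intro m'
      by_cases hm' : m' ∈ F.support
      · intro h5
        apply h1
        rw [qden_eq hm', Polynomial.eval_mul, h5, zero_mul]
      · rw [notMem_support_iff.1 hm']
        simp) h2
    obtain ⟨g, hg, hg2⟩ := h4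
    refine ⟨_, hg.shift, ?_⟩
    rw [Phi_GG F (n + 1) h1, hg2]
  have hdeg : (gnum F m).natDegree ≤ (qden F).natDegree := by
    rw [Polynomial.natDegree_le_iff_coeff_eq_zero]
    intro j hj
    rw [← coeff_GG hm j]
    apply hcore
    rw [Finsupp.add_apply, emb_zero, Finsupp.single_eq_same]
    omega
  refine ⟨_, (tendsto_ratio _ _ (qden_ne_zero F) hdeg).congr' ?_⟩
  have h1 : ∀ᶠ z : ℂ in Bornology.cobounded ℂ, (qden F).eval z ≠ 0 := by
    have h2 : Bornology.IsBounded {z : ℂ | (qden F).IsRoot z} :=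
      (Polynomial.finite_setOfPred_isRoot (qden_ne_zero F)).isBounded
    rw [Bornology.isBounded_def] at h2
    exact h2
  filter_upwards [h1] with z hz
  rw [eval_eq hm hz]

end Pool.Agent.R310.JL
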