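import Pool.Agent.R310.JL.Core

/-!
Multiplication by powers of `x_1 ⋯ x_N`, and limits of rational functions.
-/

namespace Pool.Agent.R310.JL

open Finset

theorem coeff_xall_mul {N : ℕ} (c : ℤ) (g : LP N) (η : Fin N → ℤ) :
    (xall N c * g).coeff η = g.coeff (fun i => η i - c) := by
  unfold xall
  rw [AddMonoidAlgebra.coeff_single_mul_apply, one_mul]
  congr 1
  funext i
  simp only [Pi.add_apply, Pi.neg_apply]
  ring

theorem theta_xall_mul {N : ℕ} (i : Fin N) (c : ℤ) (g : LP N) :
    theta i (xall N c * g) = xall N c * ((c : ℂ) • g + theta i g) := by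
  rw [theta_mul]
  have h1 : theta i (xall N c) = (c : ℂ) • xall N c := by
    unfold xall
    rw [theta_single, AddMonoidAlgebra.smul_single, smul_eq_mul]
  rw [h1, mul_add, smul_mul_assoc, mul_smul_comm]

theorem IsJack.shift {k : ℂ} {N : ℕ} {χ : Fin N → ℤ} {c : ℤ} {g : LP N}
    (hg : IsJack k (fun i => χ i - c) g) : IsJack k χ (xall N c * g) := by
  refine ⟨?_, ?_, ?_, ?_, ?_⟩
  · intro σ η
    rw [coeff_xall_mul, coeff_xall_mul]
    exact hg.symm σ (fun i => η i - c)
  · rw [coeff_xall_mul]
    exact hg.monic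
  · intro η hη
    rw [coeff_xall_mul] at hη
    have h1 := hg.total _ hη
    rw [Finset.sum_sub_distrib, Finset.sum_sub_distrib] at h1
    linarith
  · intro η hη S
    rw [coeff_xall_mul] at hη
    have h1 := hg.dom _ hη S
    rw [Finset.sum_sub_distrib] at h1
    have h2 : (∑ i : Fin N, if (i : ℕ) < S.card then χ i - c else 0)
        = (∑ i : Fin N, if (i : ℕ) < S.card then χ i else 0) - S.card * c := by
      have h3 : ∀ i : Fin N, (if (i : ℕ) < S.card then χ i - c else 0)
          = (if (i : ℕ) < S.card then χ i else 0) - (if (i : ℕ) < S.card then c else 0) := by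
        intro i
        split_ifs <;> simp
      simp_rw [h3]
      rw [Finset.sum_sub_distrib]
      congr 1
      rw [← Finset.sum_filter, Finset.sum_const, Fin.card_filter_val_lt, nsmul_eq_mul]
      have h4 : S.card ≤ N := by
        have := Finset.card_le_univ S
        simpa using this
      rw [min_eq_right h4]
    rw [h2, Finset.sum_const, nsmul_eq_mul] at h1
    linarith
  · obtain ⟨h, h1, h2⟩ := hg.eig
    refine ⟨fun i j => xall N c * h i j, ?_, ?_⟩
    · intro i j hij
      rw [theta_xall_mul, theta_xall_mul]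
      have := h1 i j hij
      linear_combination (xall N c) * this
    · have h3 : ∑ j, theta j g = ((∑ i, (χ i - c) : ℤ) : ℂ) • g := by
        ext η
        rw [AddMonoidAlgebra.coeff_sum, Finsupp.finsetSum_apply, AddMonoidAlgebra.coeff_smul,
          Finsupp.smul_apply, smul_eq_mul]
        simp_rw [theta_coeff]
        rw [← Finset.sum_mul]
        by_cases h4 : g.coeff η = 0
        · rw [h4]; simp
        · rw [← hg.total η h4]
          push_cast
          rfl
      have h5 : ∀ j : Fin N, theta j (theta j (xall N c * g))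
          = xall N c * ((c : ℂ) ^ 2 • g + (2 * (c : ℂ)) • theta j g + theta j (theta j g)) := by
        intro j
        rw [theta_xall_mul, theta_xall_mul, theta_add, theta_smul]
        congr 1
        rw [smul_add, smul_smul, sq, two_mul, add_smul]
        abel
      have h6 : pairSum N (fun i j => xall N c * h i j) = xall N c * pairSum N h := by
        unfold pairSum
        rw [Finset.mul_sum]
        refine Finset.sum_congr rfl fun i _ => ?_
        rw [Finset.mul_sum]
        refine Finset.sum_congr rfl fun j _ => ?_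
        split_ifs <;> simp
      have h7 : Eig k χ = Eig k (fun i => χ i - c) + 2 * (c : ℂ) * ((∑ i, (χ i - c) : ℤ) : ℂ)
          + N * (c : ℂ) ^ 2 := by
        unfold Eig
        have h8 : pairSum N (fun i j => (((χ i - c : ℤ) : ℂ)) - ((χ j - c : ℤ) : ℂ))
            = pairSum N (fun i j => (χ i : ℂ) - (χ j : ℂ)) := by
          apply pairSum_congr
          intro i j _
          push_cast
          ring
        have h9 : ∑ i, (χ i : ℂ) ^ 2 = ∑ i, (((χ i - c : ℤ) : ℂ)) ^ 2
            + 2 * (c : ℂ) * ((∑ i, (χ i - c) : ℤ) : ℂ) + N * (c : ℂ) ^ 2 := by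
          have h10 : (N : ℂ) * (c : ℂ) ^ 2 = ∑ i : Fin N, (c : ℂ) ^ 2 := by
            rw [Finset.sum_const, Finset.card_univ, Fintype.card_fin, nsmul_eq_mul]
          rw [h10]
          push_cast
          rw [Finset.mul_sum, ← Finset.sum_add_distrib, ← Finset.sum_add_distrib]
          refine Finset.sum_congr rfl fun i _ => ?_
          ring
        rw [h8, h9]
        ring
      simp_rw [h5]
      rw [h6, ← Finset.mul_sum, ← mul_smul_comm, ← mul_sub, ← mul_smul_comm]
      congr 1
      have h11 : ∑ j : Fin N, (2 * (c : ℂ)) • theta j g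
          = (2 * (c : ℂ) * ((∑ i, (χ i - c) : ℤ) : ℂ)) • g := by
        rw [← Finset.smul_sum, h3, smul_smul]
      have h12 : ∑ j : Fin N, (c : ℂ) ^ 2 • g = ((N : ℂ) * (c : ℂ) ^ 2) • g := by
        rw [Finset.sum_const, Finset.card_univ, Fintype.card_fin, ← Nat.cast_smul_eq_nsmul ℂ,
          smul_smul]
      rw [Finset.sum_add_distrib, Finset.sum_add_distrib, h11, h12, h7, add_smul,
        add_smul, ← h2]
      abel

open Filter Topology in
theorem tendsto_pow_div (n i : ℕ) (hi : i ≤ n) :
    Tendsto (fun z : ℂ => z ^ i / z ^ n) (Bornology.cobounded ℂ) (𝓝 (if i = n then 1 else 0)) := by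
  split_ifs with h
  · subst h
    apply tendsto_const_nhds.congr'
    filter_upwards [Bornology.eventually_ne_cobounded (0 : ℂ)] with z hz
    rw [div_self (pow_ne_zero _ hz)]
  · have h1 : Tendsto (fun z : ℂ => (z⁻¹) ^ (n - i)) (Bornology.cobounded ℂ) (𝓝 (0 ^ (n - i))) :=
      tendsto_inv₀_cobounded.pow _
    rw [zero_pow (by omega)] at h1
    apply h1.congr'
    filter_upwards [Bornology.eventually_ne_cobounded (0 : ℂ)] with z hz
    rw [inv_pow, eq_div_iff (pow_ne_zero _ hz), inv_mul_eq_iff_eq_mul₀ (pow_ne_zero _ hz),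
      ← pow_add]
    congr 1
    omega

open Filter Topology in
theorem tendsto_eval_div (g : Polynomial ℂ) (n : ℕ) (hg : g.natDegree ≤ n) :
    Tendsto (fun z : ℂ => g.eval z / z ^ n) (Bornology.cobounded ℂ) (𝓝 (g.coeff n)) := by
  have h1 : ∀ z : ℂ, g.eval z / z ^ n = ∑ i ∈ range (n + 1), g.coeff i * (z ^ i / z ^ n) := by
    intro z
    rw [Polynomial.eval_eq_sum_range' (Nat.lt_succ_of_le hg), Finset.sum_div]
    refine Finset.sum_congr rfl fun i _ => ?_
    ring
  simp_rw [h1]
  have h2 : g.coeff n = ∑ i ∈ range (n + 1), g.coeff i * (if i = n then 1 else 0) := by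
    simp
  rw [h2]
  apply tendsto_finsetSum
  intro i hi
  rw [Finset.mem_range] at hi
  exact (tendsto_pow_div n i (by omega)).const_mul _

open Filter Topology in
theorem tendsto_ratio (g q : Polynomial ℂ) (hq : q ≠ 0) (hg : g.natDegree ≤ q.natDegree) :
    Tendsto (fun z : ℂ => g.eval z / q.eval z) (Bornology.cobounded ℂ)
      (𝓝 (g.coeff q.natDegree / q.coeff q.natDegree)) := by
  have h1 := (tendsto_eval_div g _ hg).div (tendsto_eval_div q _ le_rfl) (by
    rw [Polynomial.coeff_natDegree]
    exact Polynomial.leadingCoeff_ne_zero.2 hq)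
  apply h1.congr'
  filter_upwards [Bornology.eventually_ne_cobounded (0 : ℂ)] with z hz
  simp only [Pi.div_apply]
  rw [div_div_div_cancel_right₀ (pow_ne_zero _ hz)]

end Pool.Agent.R310.JL
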