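import Pool.Agent.R310.JL.Expand

/-!
Vanishing criterion and the weight of the leading part.
-/

namespace Pool.Agent.R310.JL

open Finset MvPolynomial

/-- polynomial in `N` attached to weights of the monomials -/
noncomputable def RP (G : MvPolynomial ℤ ℂ) (c : (ℤ →₀ ℕ) → ℂ) : Polynomial ℂ :=
  ∑ κ ∈ G.support, Polynomial.C (G.coeff κ * c κ) * Polynomial.X ^ κ 0

theorem RP_eval (G : MvPolynomial ℤ ℂ) (c : (ℤ →₀ ℕ) → ℂ) (z : ℂ) :
    (RP G c).eval z = ∑ κ ∈ G.support, G.coeff κ * c κ * z ^ κ 0 := by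
  unfold RP
  rw [Polynomial.eval_finsetSum]
  refine Finset.sum_congr rfl fun κ _ => ?_
  simp

theorem RP_coeff (G : MvPolynomial ℤ ℂ) (c : (ℤ →₀ ℕ) → ℂ) (m : ℕ) :
    (RP G c).coeff m = ∑ κ ∈ G.support, if κ 0 = m then G.coeff κ * c κ else 0 := by
  unfold RP
  rw [Polynomial.finsetSum_coeff]
  refine Finset.sum_congr rfl fun κ _ => ?_
  rw [Polynomial.coeff_C_mul_X_pow]
  by_cases h : κ 0 = m
  · rw [if_pos h, if_pos h.symm]
  · rw [if_neg h, if_neg (fun h' => h h'.symm)]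

theorem poly_eq_of_eventually {P Q : Polynomial ℂ}
    (h : ∀ᶠ N : ℕ in Filter.atTop, P.eval (N : ℂ) = Q.eval (N : ℂ)) : P = Q := by
  obtain ⟨N₀, hN₀⟩ := Filter.eventually_atTop.1 h
  apply Polynomial.eq_of_infinite_eval_eq
  apply Set.Infinite.mono (s := (fun n : ℕ => (n : ℂ)) '' Set.Ici N₀)
  · rintro _ ⟨n, hn, rfl⟩
    exact hN₀ n hn
  · exact (Set.Ici_infinite N₀).image (Nat.cast_injective.injOn)

theorem eq_of_erase {κ κ' : ℤ →₀ ℕ} (h : κ'.erase 0 = κ.erase 0) (h0 : κ' 0 = κ 0) : κ' = κ := by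
  rw [← Finsupp.erase_add_single 0 κ', ← Finsupp.erase_add_single 0 κ, h, h0]

theorem ltr_congr {κ κ' : ℤ →₀ ℕ} (h : κ'.erase 0 = κ.erase 0) : ltr κ' = ltr κ := by
  unfold ltr
  rw [h]

theorem wt_congr {κ κ' : ℤ →₀ ℕ} (h : κ'.erase 0 = κ.erase 0) : wt κ' = wt κ := by
  rw [← wt_erase κ', ← wt_erase κ, h]

theorem cn_eq_zero_of_wt_lt {N : ℕ} {κ : ℤ →₀ ℕ} {ζ : ℕ → ℤ} (h : wt κ < nrm N ζ) :
    cn N (ltr κ) ζ = 0 := by
  by_contra h'
  have := cn_ne_zero_nrm h'
  rw [wl_ltr] at this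
  omega

/-- If all coefficients with large norm vanish, then the weight is small. -/
theorem wt_lt_of_vanish (H : MvPolynomial ℤ ℂ) (t : ℕ)
    (hv : ∀ (ζ : ℕ → ℤ) (L : ℕ), (∀ i, L ≤ i → ζ i = 0) → t ≤ nrm L ζ →
      ∀ᶠ N : ℕ in Filter.atTop, (Phi N H).coeff (res N ζ) = 0) :
    ∀ κ ∈ H.support, wt κ < t := by
  by_contra hcon
  push Not at hcon
  obtain ⟨κ₁, hκ₁, hκ₁t⟩ := hcon
  obtain ⟨κ₂, hκ₂, hmax⟩ := Finset.exists_max_image H.support wt ⟨κ₁, hκ₁⟩
  have hT : (H.support.filter fun κ => wt κ = wt κ₂).Nonempty := ⟨κ₂, by simp [mem_support_iff.1 hκ₂]⟩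
  obtain ⟨κ, hκ, ζ, L, hζ, hn, hst, hne, hdet⟩ := exists_detect _ hT
  rw [Finset.mem_filter] at hκ
  have ht : t ≤ nrm L ζ := by
    rw [hn, hκ.2]
    exact hκ₁t.trans (hmax κ₁ hκ₁)
  have hev := hv ζ L hζ ht
  set c : (ℤ →₀ ℕ) → ℂ := fun κ' => if κ'.erase 0 = κ.erase 0 then (cn L (ltr κ) ζ : ℂ) else 0
    with hc
  have h0 : RP H c = 0 := by
    apply poly_eq_of_eventually
    filter_upwards [hev, Filter.eventually_ge_atTop L] with N h1 h2
    rw [RP_eval, Polynomial.eval_zero, ← h1, coeff_Phi]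
    refine Finset.sum_congr rfl fun κ' hκ' => ?_
    have h3 : (cn N (ltr κ') ζ : ℂ) = c κ' := by
      simp only [hc]
      split_ifs with h4
      · rw [ltr_congr h4, hst N h2]
      · rcases lt_or_eq_of_le (hmax κ' hκ') with h5 | h5
        · rw [cn_eq_zero_of_wt_lt]
          · simp
          · rw [nrm_stable h2 hζ, hn, hκ.2]
            exact h5
        · rw [hdet N h2 κ' (Finset.mem_filter.2 ⟨hκ', h5⟩) h4]
          simp
    rw [h3]
    ring
  have h1 := congrArg (fun P : Polynomial ℂ => P.coeff (κ 0)) h0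
  simp only [Polynomial.coeff_zero] at h1
  rw [RP_coeff, Finset.sum_eq_single κ] at h1
  · rw [if_pos rfl] at h1
    simp only [hc, if_true] at h1
    rcases mul_eq_zero.1 h1 with h2 | h2
    · exact (mem_support_iff.1 hκ.1) h2
    · exact hne (by exact_mod_cast h2)
  · intro κ' hκ' hκκ'
    split_ifs with h2
    · simp only [hc]
      rw [if_neg, mul_zero]
      intro h3
      exact hκκ' (eq_of_erase h3 h2)
    · rfl
  · intro h2
    exact absurd hκ.1 h2

/-- injectivity -/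
theorem eq_zero_of_Phi (H : MvPolynomial ℤ ℂ)
    (hv : ∀ᶠ N : ℕ in Filter.atTop, Phi N H = 0) : H = 0 := by
  have h1 := wt_lt_of_vanish H 0 (fun ζ L _ _ => by
    filter_upwards [hv] with N hN
    rw [hN]
    simp)
  by_contra h
  obtain ⟨κ, hκ⟩ := Finset.nonempty_iff_ne_empty.2 (fun h' => h (support_eq_empty.1 h'))
  exact absurd (h1 κ hκ) (Nat.not_lt_zero _)

/-- all monomials have degree at most `m` in the variable `X 0` -/
def Low (m : ℕ) (H : MvPolynomial ℤ ℂ) : Prop := ∀ ν : ℤ →₀ ℕ, m < ν 0 → H.coeff ν = 0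

theorem Low.X_mul {m : ℕ} {H : MvPolynomial ℤ ℂ} (h : Low m H) {c : ℤ} (hc : c ≠ 0) :
    Low m (X c * H) := by
  intro ν hν
  rw [coeff_X_mul']
  split_ifs with h1
  · apply h
    rw [Finsupp.tsub_apply, Finsupp.single_eq_of_ne (fun h' => hc h'.symm)]
    simpa using hν
  · rfl

theorem Low.pderiv {m : ℕ} {H : MvPolynomial ℤ ℂ} (h : Low m H) (a : ℤ) :
    Low m (pderiv a H) := by
  intro ν hν
  rw [coeff_pderiv, h, zero_mul]
  rw [Finsupp.add_apply]
  omega

theorem Low.sub {m : ℕ} {H K : MvPolynomial ℤ ℂ} (h : Low m H) (h' : Low m K) :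
    Low m (H - K) := by
  intro ν hν
  rw [coeff_sub, h ν hν, h' ν hν, sub_zero]

theorem Low.sum {m : ℕ} {ι : Type*} {s : Finset ι} {H : ι → MvPolynomial ℤ ℂ}
    (h : ∀ i ∈ s, Low m (H i)) : Low m (∑ i ∈ s, H i) := by
  intro ν hν
  rw [coeff_sum]
  exact Finset.sum_eq_zero fun i hi => h i hi ν hν

theorem coeff_X_mul_pderiv (a : ℤ) (G : MvPolynomial ℤ ℂ) (κ : ℤ →₀ ℕ) :
    (X a * pderiv a G).coeff κ = (κ a : ℂ) * G.coeff κ := by
  rw [coeff_X_mul']
  split_ifs with h
  · have h1 : κ a ≠ 0 := by simpa using h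
    have h2 : κ - Finsupp.single a 1 + Finsupp.single a 1 = κ := by
      ext b
      by_cases hb : b = a
      · subst hb
        simp
        omega
      · simp [hb]
    rw [coeff_pderiv, h2, Finsupp.tsub_apply, Finsupp.single_eq_same]
    have h3 : ((κ a - 1 : ℕ) : ℂ) + 1 = κ a := by
      have : κ a = (κ a - 1) + 1 := by omega
      conv_rhs => rw [this]
      push_cast
      ring
    rw [h3]
    ring
  · have h1 : κ a = 0 := by simpa using h
    rw [h1]
    simp

theorem wt_sum (κ : ℤ →₀ ℕ) : wt κ = κ.sum fun a n => n * a.natAbs := by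
  induction κ using Finsupp.induction_linear with
  | zero => simp [wt]
  | add f g hf hg =>
    rw [wt_add, Finsupp.sum_add_index', hf, hg]
    · intro a; simp
    · intro a m n; ring
  | single a n =>
    rw [wt_single, Finsupp.sum_single_index]
    simp

theorem wt_eq_sum {κ : ℤ →₀ ℕ} {S : Finset ℤ} (hS : κ.support ⊆ S) :
    wt κ = ∑ a ∈ S, κ a * a.natAbs := by
  rw [wt_sum, Finsupp.sum]
  apply Finset.sum_subset hS
  intro a _ ha
  have : κ a = 0 := by simpa using ha
  rw [this, zero_mul]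

/-- The leading part in `X 0` of an eigenvector has top weight `d`. -/
theorem top_weight {k : ℂ} (hk : k ≠ 0) {S : Finset ℤ} {G : MvPolynomial ℤ ℂ} {E₀ : ℂ} {d : ℕ}
    (hS : ∀ b ∉ S, MvPolynomial.pderiv b G = 0)
    (hLL : LL k S G = C E₀ * G + (-(k * d)) • (X 0 * G))
    {m : ℕ} (hm : Low m G) {κ : ℤ →₀ ℕ} (hκ : κ ∈ G.support) (hκm : κ 0 = m)
    (hmax : ∀ κ' ∈ G.support, κ' 0 = m → wt κ' ≤ wt κ) : wt κ = d := by
  have hμ : m < (Finsupp.single (0 : ℤ) 1 + κ : ℤ →₀ ℕ) 0 := by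
    rw [Finsupp.add_apply, Finsupp.single_eq_same]
    omega
  have h1 : (LL k S G).coeff (Finsupp.single 0 1 + κ)
      = (C E₀ * G + (-(k * d)) • (X 0 * G)).coeff (Finsupp.single 0 1 + κ) := by rw [hLL]
  have hR : (C E₀ * G + (-(k * d)) • (X 0 * G)).coeff (Finsupp.single 0 1 + κ)
      = -(k * d) * G.coeff κ := by
    rw [coeff_add, coeff_C_mul, hm _ hμ, coeff_smul, coeff_X_mul]
    simp
  have hT1 : ∀ a b : ℤ, (((a : ℂ) * b) •
      (X (a + b) * MvPolynomial.pderiv b (MvPolynomial.pderiv a G))).coeff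
        (Finsupp.single 0 1 + κ) = 0 := by
    intro a b
    rw [coeff_smul]
    by_cases ha : a = 0
    · subst ha; simp
    by_cases hb : b = 0
    · subst hb; simp
    by_cases hab : a + b = 0
    · rw [hab, coeff_X_mul, coeff_pderiv, coeff_pderiv]
      have h2 : G.coeff (κ + Finsupp.single b 1 + Finsupp.single a 1) = 0 := by
        by_contra h3
        have h4 := hmax _ (mem_support_iff.2 h3) (by
          rw [Finsupp.add_apply, Finsupp.add_apply, Finsupp.single_eq_of_ne (fun h => hb h.symm),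
            Finsupp.single_eq_of_ne (fun h => ha h.symm), hκm, add_zero, add_zero])
        rw [wt_add, wt_add, wt_single, wt_single] at h4
        have : 0 < a.natAbs := Int.natAbs_pos.2 ha
        omega
      rw [h2]
      simp
    · rw [((hm.pderiv a).pderiv b).X_mul hab _ hμ, smul_zero]
  have hT2 : ∀ a : ℤ, (((a : ℂ) ^ 2) • (X a * MvPolynomial.pderiv a G)).coeff
        (Finsupp.single 0 1 + κ) = 0 := by
    intro a
    rw [coeff_smul]
    by_cases ha : a = 0
    · subst ha; simp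
    rw [(hm.pderiv a).X_mul ha _ hμ, smul_zero]
  have hT3 : ∀ a : ℤ, ((a.natAbs : ℂ) • (WW a * MvPolynomial.pderiv a G)).coeff
        (Finsupp.single 0 1 + κ) = ((κ a * a.natAbs : ℕ) : ℂ) * G.coeff κ := by
    intro a
    rw [coeff_smul]
    by_cases ha : a = 0
    · subst ha; simp
    have hs : a.sign ≠ 0 := by
      rw [ne_eq, Int.sign_eq_zero_iff_zero]
      exact ha
    obtain ⟨n, hn⟩ : ∃ n, a.natAbs = n + 1 :=
      ⟨a.natAbs - 1, by have := Int.natAbs_pos.2 ha; omega⟩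
    have h2 : WW a * MvPolynomial.pderiv a G
        = (∑ l ∈ range n, (X (a.sign * ((l + 1 : ℕ) : ℤ)) * (X (a - a.sign * ((l + 1 : ℕ) : ℤ))
              * MvPolynomial.pderiv a G) - X a * MvPolynomial.pderiv a G))
          + (X 0 * (X a * MvPolynomial.pderiv a G) - X a * MvPolynomial.pderiv a G) := by
      unfold WW
      rw [hn, Finset.sum_range_succ', add_mul, Finset.sum_mul]
      congr 1
      · refine Finset.sum_congr rfl fun l _ => ?_
        ring
      · have e1 : a.sign * ((0 : ℕ) : ℤ) = 0 := by simp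
        rw [e1, sub_zero]
        ring
    have h3 : Low m (∑ l ∈ range n, (X (a.sign * ((l + 1 : ℕ) : ℤ))
        * (X (a - a.sign * ((l + 1 : ℕ) : ℤ)) * MvPolynomial.pderiv a G)
          - X a * MvPolynomial.pderiv a G)) := by
      apply Low.sum
      intro l hl
      rw [Finset.mem_range] at hl
      apply Low.sub
      · apply Low.X_mul
        · apply Low.X_mul (hm.pderiv a)
          intro h4
          have h5 : a = a.sign * ((l + 1 : ℕ) : ℤ) := by linarith
          have h6 := congrArg Int.natAbs h5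
          rw [Int.natAbs_mul, Int.natAbs_sign_of_ne_zero ha, one_mul, Int.natAbs_natCast] at h6
          omega
        · apply mul_ne_zero hs
          positivity
      · exact (hm.pderiv a).X_mul ha
    rw [h2, coeff_add, h3 _ hμ, coeff_sub, coeff_X_mul, coeff_X_mul_pderiv,
      (hm.pderiv a).X_mul ha _ hμ, smul_eq_mul]
    push_cast
    ring
  have hL : (LL k S G).coeff (Finsupp.single 0 1 + κ) = -(k * wt κ) * G.coeff κ := by
    unfold LL
    rw [coeff_sub, coeff_add, coeff_sum, coeff_sum, coeff_smul, coeff_sum]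
    rw [Finset.sum_eq_zero (s := S), Finset.sum_eq_zero (s := S), Finset.sum_congr rfl fun a _ => hT3 a]
    · rw [← Finset.sum_mul, ← Nat.cast_sum, ← wt_eq_sum]
      · rw [smul_eq_mul]; ring
      · intro a ha
        by_contra h
        have h2 := coeff_X_mul_pderiv a G κ
        rw [hS a h, mul_zero, coeff_zero] at h2
        rcases mul_eq_zero.1 h2.symm with h3 | h3
        · exact (Finsupp.mem_support_iff.1 ha) (by exact_mod_cast h3)
        · exact (mem_support_iff.1 hκ) h3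
    · intro a _
      exact hT2 a
    · intro a _
      rw [coeff_sum]
      exact Finset.sum_eq_zero fun b _ => hT1 a b
  rw [hR, hL] at h1
  have h2 := mul_right_cancel₀ (mem_support_iff.1 hκ) h1
  have h3 := mul_left_cancel₀ hk (neg_injective h2)
  exact_mod_cast h3

end Pool.Agent.R310.JL
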